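import Pool.Agent.MP_c42954_lc.Potential

set_option autoImplicit false

/-!
# Live nodes and executions
-/

namespace Pool.Agent.MP_c42954_lc

open BinaryTree

/-- Number of live nodes: nodes whose subtree contains a key of `R`. -/
def live (R : Finset ℕ) : BinaryTree ℕ → ℕ
  | .nil => 0
  | .node a l r => live R l + live R r +
      if ∃ y ∈ R, y ∈ inorder (.node a l r) then 1 else 0

theorem mem_inorder_node {y a : ℕ} {l r : BinaryTree ℕ} :
    y ∈ inorder (.node a l r) ↔ y ∈ inorder l ∨ y = a ∨ y ∈ inorder r := by
  simp [inorder]

theorem live_mono {R R' : Finset ℕ} (h : R ⊆ R') : ∀ t : BinaryTree ℕ, live R t ≤ live R' t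
  | .nil => le_refl _
  | .node a l r => by
      have h1 := live_mono h l
      have h2 := live_mono h r
      simp only [live]
      have h3 : (if ∃ y ∈ R, y ∈ inorder (.node a l r) then 1 else 0) ≤
          (if ∃ y ∈ R', y ∈ inorder (.node a l r) then 1 else 0) := by
        split_ifs with h3 h4
        · exact le_refl _
        · exact absurd (h3.imp fun y hy => ⟨h hy.1, hy.2⟩) h4
        · exact Nat.zero_le _
        · exact le_refl _
      omega

theorem live_rot {R : Finset ℕ} {t t' : BinaryTree ℕ} (h : Rot t t') :
    live R t ≤ live R t' + 1 := by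
  induction h with
  | atLeftChild a b A B C =>
    simp only [live]
    have e : (∃ y ∈ R, y ∈ inorder (.node a (.node b A B) C)) ↔
        (∃ y ∈ R, y ∈ inorder (.node b A (.node a B C))) := by
      simp [inorder]
    rw [if_congr e rfl rfl]
    split_ifs <;> omega
  | atRightChild a b A B C =>
    simp only [live]
    have e : (∃ y ∈ R, y ∈ inorder (.node a (.node b A B) C)) ↔
        (∃ y ∈ R, y ∈ inorder (.node b A (.node a B C))) := by
      simp [inorder]
    rw [if_congr e rfl rfl]
    split_ifs <;> omega
  | @inLeft a l l' r h ih =>
    simp only [live]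
    have e' : (∃ y ∈ R, y ∈ inorder (.node a l' r)) ↔ (∃ y ∈ R, y ∈ inorder (.node a l r)) := by
      simp only [mem_inorder_node, inorder_rot h]
    rw [if_congr e' rfl rfl]
    omega
  | @inRight a l r r' h ih =>
    simp only [live]
    have e' : (∃ y ∈ R, y ∈ inorder (.node a l r')) ↔ (∃ y ∈ R, y ∈ inorder (.node a l r)) := by
      simp only [mem_inorder_node, inorder_rot h]
    rw [if_congr e' rfl rfl]
    omega

theorem live_rotSeq {R : Finset ℕ} {n : ℕ} {t t' : BinaryTree ℕ} (h : RotSeq n t t') :
    live R t ≤ live R t' + n := by
  induction h with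
  | refl t => simp
  | step _ h ih =>
    have := live_rot (R := R) h
    omega

theorem live_empty : ∀ t : BinaryTree ℕ, live ∅ t = 0
  | .nil => rfl
  | .node a l r => by simp [live, live_empty l, live_empty r]

theorem live_not {R : Finset ℕ} : ∀ t : BinaryTree ℕ, (∀ y ∈ R, y ∉ inorder t) → live R t = 0
  | .nil, _ => rfl
  | .node a l r, h => by
      have h1 : ∀ y ∈ R, y ∉ inorder l := fun y hy h' =>
        h y hy (mem_inorder_node.mpr (Or.inl h'))
      have h2 : ∀ y ∈ R, y ∉ inorder r := fun y hy h' =>
        h y hy (mem_inorder_node.mpr (Or.inr (Or.inr h')))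
      have h3 : ¬ ∃ y ∈ R, y ∈ inorder (.node a l r) := by
        rintro ⟨y, hy, hy'⟩
        exact h y hy hy'
      simp only [live, live_not l h1, live_not r h2, if_neg h3]

theorem live_insert {R : Finset ℕ} {x : ℕ} : ∀ {t : BinaryTree ℕ}, IsBST t →
    x ∈ inorder t → live (insert x R) t ≤ live R t + (depth x t + 1)
  | .nil, _, h => by simp [inorder] at h
  | .node a l r, hb, h => by
      obtain ⟨h1, h2, h3, h4⟩ := isBST_node.mp hb
      have aux : ∀ t : BinaryTree ℕ, x ∉ inorder t → live (insert x R) t = live R t := by
        intro t
        induction t with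
        | nil => intro _; rfl
        | node a l r ihl ihr =>
          intro hx
          rw [mem_inorder_node] at hx
          push Not at hx
          simp only [live, ihl hx.1, ihr hx.2.2]
          have e : (∃ y ∈ insert x R, y ∈ inorder (.node a l r)) ↔
              (∃ y ∈ R, y ∈ inorder (.node a l r)) := by
            constructor
            · rintro ⟨y, hy, hy'⟩
              rcases Finset.mem_insert.mp hy with rfl | hy
              · rw [mem_inorder_node] at hy'
                exact absurd hy' (by tauto)
              · exact ⟨y, hy, hy'⟩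
            · rintro ⟨y, hy, hy'⟩
              exact ⟨y, Finset.mem_insert_of_mem hy, hy'⟩
          rw [if_congr e rfl rfl]
      rcases mem_inorder_node.mp h with h5 | h5 | h5
      · have h6 := h3 x h5
        have h7 : x ≠ a := by omega
        have h8 : x ∉ inorder r := fun h' => by have := h4 x h'; omega
        have ih := live_insert (R := R) h1 h5
        simp only [live, depth, h7, h6, if_true, if_false, aux r h8]
        split_ifs <;> omega
      · have h6 : x ∉ inorder l := fun h' => by have := h3 x h'; omega
        have h7 : x ∉ inorder r := fun h' => by have := h4 x h'; omega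
        simp only [live, depth, h5, if_true]
        rw [← h5, aux l h6, aux r h7]
        split_ifs <;> omega
      · have h6 := h4 x h5
        have h7 : x ≠ a := by omega
        have h7' : ¬ x < a := by omega
        have h8 : x ∉ inorder l := fun h' => by have := h3 x h'; omega
        have ih := live_insert (R := R) h2 h5
        simp only [live, depth, h7, h7', if_false, aux l h8]
        split_ifs <;> omega

/-- Every execution costs at least the number of nodes of `T` lying on search paths to
requested keys. -/
theorem live_le_exec {T : BinaryTree ℕ} {X : List ℕ} {c : ℕ} (h : Exec T X c) :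
    IsBST T → (∀ x ∈ X, x ∈ inorder T) → live X.toFinset T ≤ c := by
  induction h with
  | nil T => intro _ _; simp [live_empty]
  | @cons T T' x X e c hr he ih =>
    intro hb hX
    have e1 := inorder_rotSeq hr
    have hb' : IsBST T' := by unfold IsBST; rw [e1]; exact hb
    have h1 := ih hb' (fun y hy => by rw [e1]; exact hX y (List.mem_cons_of_mem _ hy))
    have h2 := live_rotSeq (R := X.toFinset) hr
    have h3 := live_insert (R := X.toFinset) hb (hX x List.mem_cons_self)
    rw [List.toFinset_cons]
    omega

theorem length_le_exec {T : BinaryTree ℕ} {X : List ℕ} {c : ℕ} (h : Exec T X c) :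
    X.length ≤ c := by
  induction h with
  | nil T => simp
  | cons hr he ih => simp only [List.length_cons]; omega

theorem exists_exec : ∀ (X : List ℕ) (T : BinaryTree ℕ), ∃ c, Exec T X c
  | [], T => ⟨0, Exec.nil T⟩
  | x :: X, T => by
      obtain ⟨c, hc⟩ := exists_exec X T
      exact ⟨_, Exec.cons (RotSeq.refl T) hc⟩

theorem exec_opt (X : List ℕ) (T : BinaryTree ℕ) : Exec T X (OPT X T) :=
  Nat.sInf_mem (s := {c | Exec T X c}) (exists_exec X T)

end Pool.Agent.MP_c42954_lc
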