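import Pool.Agent.MP_c42954_lc.Live

set_option autoImplicit false

/-!
# Splaying is competitive with every execution whose keys do not rise between requests

No additive term.  The cost of splaying is at most `12` times the cost of any execution, if the
depth of each requested key is replaced by the largest depth it has had since its previous
request.
-/

namespace Pool.Agent.Results.MP_c42954_lc.PeakDepth

open BinaryTree Pool.Agent.MP_c42954_lc

/-- Largest depth of the key `v` in the trees `U j`, `j ≤ i`, such that `v` is not requested at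
the times `j, …, i - 1`. -/
def maxDepth (X : ℕ → ℕ) (U : ℕ → BinaryTree ℕ) (i v : ℕ) : ℕ :=
  ((Finset.range (i + 1)).filter (fun j => ∀ k ∈ Finset.Ico j i, X k ≠ v)).sup
    (fun j => depth v (U j))

/-- The peak depth of request number `i`: the largest depth that the key `X i` has had in the
trees `U j` since its previous request (since the start if there is none) up to time `i`. -/
def peak (X : ℕ → ℕ) (U : ℕ → BinaryTree ℕ) (i : ℕ) : ℕ := maxDepth X U i (X i)

theorem depth_le_maxDepth (X : ℕ → ℕ) (U : ℕ → BinaryTree ℕ) (i v : ℕ) :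
    depth v (U i) ≤ maxDepth X U i v := by
  unfold maxDepth
  refine Finset.le_sup (f := fun j => depth v (U j)) ?_
  rw [Finset.mem_filter, Finset.mem_range]
  refine ⟨by omega, fun k hk => ?_⟩
  rw [Finset.mem_Ico] at hk
  omega

theorem maxDepth_succ (X : ℕ → ℕ) (U : ℕ → BinaryTree ℕ) {i v : ℕ} (h : X i ≠ v) :
    maxDepth X U i v ≤ maxDepth X U (i + 1) v := by
  unfold maxDepth
  apply Finset.sup_mono
  intro j hj
  simp only [Finset.mem_filter, Finset.mem_range, Finset.mem_Ico] at hj ⊢
  refine ⟨by omega, fun k hk => ?_⟩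
  rcases Nat.lt_or_ge k i with h1 | h1
  · exact hj.2 k ⟨hk.1, h1⟩
  · have : k = i := by omega
    rw [this]; exact h

/-! ## Arithmetic -/

theorem log_amgm {a b S : ℝ} (ha : 0 < a) (hb : 0 < b) (h : a + b ≤ S) :
    Real.logb 2 a + Real.logb 2 b + 2 ≤ 2 * Real.logb 2 S := by
  have hS : 0 < S := by linarith
  have h1 : Real.logb 2 (a * b * 4) ≤ Real.logb 2 (S ^ 2) := by
    apply Real.logb_le_logb_of_le (by norm_num) (by positivity)
    nlinarith [sq_nonneg (a - b)]
  rw [Real.logb_mul (by positivity) (by norm_num), Real.logb_mul ha.ne' hb.ne',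
    Real.logb_pow] at h1
  have h2 : Real.logb 2 4 = 2 := by
    rw [show (4 : ℝ) = 2 ^ (2 : ℕ) by norm_num, Real.logb_pow]
    simp
  rw [h2] at h1
  push_cast at h1
  linarith

theorem logb_quarter_pow (n : ℕ) : Real.logb 2 ((1 / 4 : ℝ) ^ n) = -2 * n := by
  have h2 : Real.logb 2 (1 / 4 : ℝ) = -2 := by
    rw [show (1 / 4 : ℝ) = ((2 : ℝ) ^ (2 : ℕ))⁻¹ by norm_num, Real.logb_inv, Real.logb_pow]
    simp
  rw [Real.logb_pow, h2]
  ring

theorem quarter_pow_le {m n : ℕ} (h : m ≤ n) : (1 / 4 : ℝ) ^ n ≤ (1 / 4 : ℝ) ^ m :=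
  pow_le_pow_of_le_one (by norm_num) (by norm_num) h

theorem quarter_pow_pos (n : ℕ) : 0 < (1 / 4 : ℝ) ^ n := by positivity

/-- The sum of `4^{-depth}` over a binary search tree is at most `2`. -/
theorem geo : ∀ (t : BinaryTree ℕ) (g : ℕ → ℝ) (c : ℝ), 0 ≤ c → IsBST t →
    (∀ v ∈ inorder t, g v ≤ c * (1 / 4 : ℝ) ^ depth v t) → wsum g t ≤ 2 * c
  | .nil, g, c, hc, _, _ => by simp [wsum]; exact hc
  | .node a l r, g, c, hc, hb, hg => by
      obtain ⟨h1, h2, h3, h4⟩ := isBST_node.mp hb
      have i1 := geo l g (c / 4) (by linarith) h1 (fun v hv => by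
        have h5 := hg v (mem_inorder_node.mpr (Or.inl hv))
        have h6 := h3 v hv
        have h7 : v ≠ a := by omega
        simp only [depth, h7, h6, if_true, if_false] at h5
        rw [pow_succ] at h5
        linarith)
      have i2 := geo r g (c / 4) (by linarith) h2 (fun v hv => by
        have h5 := hg v (mem_inorder_node.mpr (Or.inr (Or.inr hv)))
        have h6 := h4 v hv
        have h7 : v ≠ a := by omega
        have h8 : ¬ v < a := by omega
        simp only [depth, h7, h8, if_false] at h5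
        rw [pow_succ] at h5
        linarith)
      have i3 := hg a (mem_inorder_node.mpr (Or.inr (Or.inl rfl)))
      simp only [depth, if_true, pow_zero, mul_one] at i3
      simp only [wsum]
      linarith

theorem wsum_add (f g : ℕ → ℝ) : ∀ t : BinaryTree ℕ,
    wsum (fun v => f v + g v) t = wsum f t + wsum g t
  | .nil => by simp [wsum]
  | .node a l r => by
      simp only [wsum, wsum_add f g l, wsum_add f g r]
      ring

/-! ## The live keys -/

/-- The keys of `t` whose subtree contains a key of `R`. -/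
def liveKeys (R : Finset ℕ) : BinaryTree ℕ → List ℕ
  | .nil => []
  | .node a l r => liveKeys R l ++ liveKeys R r ++
      if ∃ y ∈ R, y ∈ inorder (.node a l r) then [a] else []

theorem length_liveKeys (R : Finset ℕ) : ∀ t : BinaryTree ℕ, (liveKeys R t).length = live R t
  | .nil => rfl
  | .node a l r => by
      simp only [liveKeys, live, List.length_append, length_liveKeys R l, length_liveKeys R r]
      split_ifs <;> rfl

theorem liveKeys_sub {R : Finset ℕ} {v : ℕ} : ∀ {t : BinaryTree ℕ}, v ∈ liveKeys R t →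
    v ∈ inorder t
  | .nil, h => by simp [liveKeys] at h
  | .node a l r, h => by
      simp only [liveKeys, List.mem_append] at h
      rw [mem_inorder_node]
      rcases h with (h | h) | h
      · exact Or.inl (liveKeys_sub h)
      · exact Or.inr (Or.inr (liveKeys_sub h))
      · split_ifs at h with h'
        · exact Or.inr (Or.inl (by simpa using h))
        · simp at h

theorem mem_liveKeys {R : Finset ℕ} {v : ℕ} (hv : v ∈ R) : ∀ {t : BinaryTree ℕ},
    v ∈ inorder t → v ∈ liveKeys R t
  | .nil, h => by simp [inorder] at h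
  | .node a l r, h => by
      simp only [liveKeys, List.mem_append]
      rcases mem_inorder_node.mp h with h1 | h1 | h1
      · exact Or.inl (Or.inl (mem_liveKeys hv h1))
      · right
        rw [if_pos ⟨v, hv, h⟩, h1]
        simp
      · exact Or.inl (Or.inr (mem_liveKeys hv h1))

/-- `K` is closed under taking ancestors in `t`. -/
def UC (K : ℕ → Prop) : BinaryTree ℕ → Prop
  | .nil => True
  | .node a l r => (∀ y ∈ inorder l, K y → K a) ∧ (∀ y ∈ inorder r, K y → K a) ∧ UC K l ∧ UC K r

theorem live_mem_iff {R : Finset ℕ} {a : ℕ} {l r : BinaryTree ℕ}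
    (hb : IsBST (.node a l r)) :
    a ∈ liveKeys R (.node a l r) ↔ ∃ y ∈ R, y ∈ inorder (.node a l r) := by
  obtain ⟨h1, h2, h3, h4⟩ := isBST_node.mp hb
  simp only [liveKeys, List.mem_append]
  constructor
  · rintro ((h | h) | h)
    · have := h3 a (liveKeys_sub h); omega
    · have := h4 a (liveKeys_sub h); omega
    · by_contra h'
      rw [if_neg h'] at h
      simp at h
  · intro h
    right
    rw [if_pos h]
    simp

theorem exists_of_live {R : Finset ℕ} {v : ℕ} : ∀ {t : BinaryTree ℕ}, v ∈ liveKeys R t →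
    ∃ y ∈ R, y ∈ inorder t
  | .nil, h => by simp [liveKeys] at h
  | .node a l r, h => by
      simp only [liveKeys, List.mem_append] at h
      rcases h with (h | h) | h
      · obtain ⟨y, h1, h2⟩ := exists_of_live h
        exact ⟨y, h1, mem_inorder_node.mpr (Or.inl h2)⟩
      · obtain ⟨y, h1, h2⟩ := exists_of_live h
        exact ⟨y, h1, mem_inorder_node.mpr (Or.inr (Or.inr h2))⟩
      · by_contra h'
        rw [if_neg h'] at h
        simp at h

theorem uc_congr {K K' : ℕ → Prop} : ∀ {t : BinaryTree ℕ}, (∀ v ∈ inorder t, (K v ↔ K' v)) →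
    UC K t → UC K' t
  | .nil, _, _ => trivial
  | .node a l r, h, hu => by
      obtain ⟨h1, h2, h3, h4⟩ := hu
      have ha := h a (mem_inorder_node.mpr (Or.inr (Or.inl rfl)))
      refine ⟨fun y hy hK => ?_, fun y hy hK => ?_, ?_, ?_⟩
      · exact ha.mp (h1 y hy ((h y (mem_inorder_node.mpr (Or.inl hy))).mpr hK))
      · exact ha.mp (h2 y hy ((h y (mem_inorder_node.mpr (Or.inr (Or.inr hy)))).mpr hK))
      · exact uc_congr (fun v hv => h v (mem_inorder_node.mpr (Or.inl hv))) h3
      · exact uc_congr (fun v hv => h v (mem_inorder_node.mpr (Or.inr (Or.inr hv)))) h4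

theorem uc_live (R : Finset ℕ) : ∀ {t : BinaryTree ℕ}, IsBST t →
    UC (fun v => v ∈ liveKeys R t) t
  | .nil, _ => trivial
  | .node a l r, hb => by
      obtain ⟨h1, h2, h3, h4⟩ := isBST_node.mp hb
      refine ⟨fun y _ hK => ?_, fun y _ hK => ?_, ?_, ?_⟩
      · show a ∈ liveKeys R (.node a l r)
        rw [live_mem_iff hb]; exact exists_of_live hK
      · show a ∈ liveKeys R (.node a l r)
        rw [live_mem_iff hb]; exact exists_of_live hK
      · refine uc_congr (fun v hv => ?_) (uc_live R h1)
        have h5 := h3 v hv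
        simp only [liveKeys, List.mem_append]
        constructor
        · intro h; exact Or.inl (Or.inl h)
        · rintro ((h | h) | h)
          · exact h
          · have := h4 v (liveKeys_sub h); omega
          · split_ifs at h
            · have : v = a := by simpa using h
              omega
            · simp at h
      · refine uc_congr (fun v hv => ?_) (uc_live R h2)
        have h5 := h4 v hv
        simp only [liveKeys, List.mem_append]
        constructor
        · intro h; exact Or.inl (Or.inr h)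
        · rintro ((h | h) | h)
          · have := h3 v (liveKeys_sub h); omega
          · exact h
          · split_ifs at h
            · have : v = a := by simpa using h
              omega
            · simp at h

theorem pk_of_uc {K : ℕ → Prop} {x : ℕ} (hx : K x) : ∀ {d : ℕ} {t : BinaryTree ℕ}, UC K t →
    At x d t → PK K x t
  | _, .nil, _, h => by simp [At] at h
  | 0, .node a l r, _, h => by
      simp only [At] at h
      subst h
      exact ⟨hx, Or.inl rfl⟩
  | d + 1, .node a l r, hu, h => by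
      obtain ⟨h1, h2, h3, h4⟩ := hu
      rcases h with ⟨h5, h6⟩ | ⟨h5, h6⟩
      · exact ⟨h1 x (mem_of_at h6) hx, Or.inr (Or.inl ⟨h5, pk_of_uc hx h3 h6⟩)⟩
      · exact ⟨h2 x (mem_of_at h6) hx, Or.inr (Or.inr ⟨h5, pk_of_uc hx h4 h6⟩)⟩

theorem uc_dbl {K : ℕ → Prop} {x : ℕ} {t t' : BinaryTree ℕ} (h : Dbl x t t') (hp : PK K x t)
    (hu : UC K t) : UC K t' := by
  induction h with
  | ll z y p q c r h1 h2 =>
    obtain ⟨kz, h3 | ⟨_, ky, h4 | ⟨_, kx, _⟩ | ⟨h4, _⟩⟩ | ⟨h3, _⟩⟩ := hp
    · omega
    · omega
    · obtain ⟨_, _, ⟨_, _, ⟨_, _, u1, u2⟩, u3⟩, u4⟩ := hu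
      exact ⟨fun _ _ _ => kx, fun _ _ _ => kx, u1, fun _ _ _ => ky, fun _ _ _ => ky, u2,
        fun _ _ _ => kz, fun _ _ _ => kz, u3, u4⟩
    · omega
    · omega
  | lr z y a p q r h1 h2 =>
    obtain ⟨kz, h3 | ⟨_, ky, h4 | ⟨h4, _⟩ | ⟨_, kx, _⟩⟩ | ⟨h3, _⟩⟩ := hp
    · omega
    · omega
    · omega
    · obtain ⟨_, _, ⟨_, _, u1, ⟨_, _, u2, u3⟩⟩, u4⟩ := hu
      exact ⟨fun _ _ _ => kx, fun _ _ _ => kx, ⟨fun _ _ _ => ky, fun _ _ _ => ky, u1, u2⟩,
        ⟨fun _ _ _ => kz, fun _ _ _ => kz, u3, u4⟩⟩
    · omega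
  | rr z y l a p q h1 h2 =>
    obtain ⟨kz, h3 | ⟨h3, _⟩ | ⟨_, ky, h4 | ⟨h4, _⟩ | ⟨_, kx, _⟩⟩⟩ := hp
    · omega
    · omega
    · omega
    · omega
    · obtain ⟨_, _, u1, ⟨_, _, u2, ⟨_, _, u3, u4⟩⟩⟩ := hu
      exact ⟨fun _ _ _ => kx, fun _ _ _ => kx, ⟨fun _ _ _ => ky, fun _ _ _ => ky,
        ⟨fun _ _ _ => kz, fun _ _ _ => kz, u1, u2⟩, u3⟩, u4⟩
  | rl z y l p q c h1 h2 =>
    obtain ⟨kz, h3 | ⟨h3, _⟩ | ⟨_, ky, h4 | ⟨_, kx, _⟩ | ⟨h4, _⟩⟩⟩ := hp
    · omega
    · omega
    · omega
    · obtain ⟨_, _, u1, ⟨_, _, ⟨_, _, u2, u3⟩, u4⟩⟩ := hu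
      exact ⟨fun _ _ _ => kx, fun _ _ _ => kx, ⟨fun _ _ _ => kz, fun _ _ _ => kz, u1, u2⟩,
        ⟨fun _ _ _ => ky, fun _ _ _ => ky, u3, u4⟩⟩
    · omega
  | inL a r h hd ih =>
    obtain ⟨h1, h3 | ⟨_, h4⟩ | ⟨h3, _⟩⟩ := hp
    · omega
    · obtain ⟨u1, u2, u3, u4⟩ := hu
      exact ⟨fun _ _ _ => h1, fun _ _ _ => h1, ih h4 u3, u4⟩
    · omega
  | inR a l h hd ih =>
    obtain ⟨h1, h3 | ⟨h3, _⟩ | ⟨_, h4⟩⟩ := hp
    · omega
    · omega
    · obtain ⟨u1, u2, u3, u4⟩ := hu
      exact ⟨fun _ _ _ => h1, fun _ _ _ => h1, u3, ih h4 u4⟩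

theorem uc_sgl {K : ℕ → Prop} {x : ℕ} {t t' : BinaryTree ℕ} (h : Sgl x t t') (hp : PK K x t)
    (hu : UC K t) : UC K t' := by
  cases h with
  | l z p q r h1 =>
    obtain ⟨kz, h3 | ⟨_, kx, _⟩ | ⟨h3, _⟩⟩ := hp
    · omega
    · obtain ⟨_, _, ⟨_, _, u1, u2⟩, u3⟩ := hu
      exact ⟨fun _ _ _ => kx, fun _ _ _ => kx, u1, fun _ _ _ => kz, fun _ _ _ => kz, u2, u3⟩
    · omega
  | r z l p q h1 =>
    obtain ⟨kz, h3 | ⟨h3, _⟩ | ⟨_, kx, _⟩⟩ := hp
    · omega
    · omega
    · obtain ⟨_, _, u1, ⟨_, _, u2, u3⟩⟩ := hu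
      exact ⟨fun _ _ _ => kx, fun _ _ _ => kx, ⟨fun _ _ _ => kz, fun _ _ _ => kz, u1, u2⟩, u3⟩

theorem uc_iter {K : ℕ → Prop} {x : ℕ} : ∀ (d n : ℕ) (t : BinaryTree ℕ), d ≤ n → At x d t →
    PK K x t → UC K t → UC K ((splayStep x)^[n] t)
  | 0, n, t, _, hA, _, hu => by rw [iter_root hA]; exact hu
  | 1, n, t, hn, hA, hp, hu => by
      obtain ⟨n, rfl⟩ : ∃ k, n = k + 1 := ⟨n - 1, by omega⟩
      have hs := sgl_step hA
      rw [Function.iterate_succ_apply, iter_root (at_sgl hs)]
      exact uc_sgl hs hp hu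
  | d + 2, n, t, hn, hA, hp, hu => by
      obtain ⟨n, rfl⟩ : ∃ k, n = k + 1 := ⟨n - 1, by omega⟩
      have hs := dbl_step hA
      rw [Function.iterate_succ_apply]
      exact uc_iter d n _ (by omega) (at_dbl hs hA) (pk_dbl hs hp) (uc_dbl hs hp hu)

theorem uc_splay {K : ℕ → Prop} {x d : ℕ} {t : BinaryTree ℕ} (hA : At x d t) (hx : K x)
    (hu : UC K t) : UC K (splay x t) :=
  uc_iter d (depth x t) t (at_depth hA).ge hA (pk_of_uc hx hu hA) hu

/-! ## Potentials -/

theorem adm_log {w : ℕ → ℝ} {K : ℕ → Prop} (hw : ∀ v, 0 ≤ w v) (hK : ∀ v, K v → 0 < w v) :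
    Adm w (Real.logb 2) K (fun s => 0 < s) where
  nonneg := hw
  valid := fun v l r hv => by
    have h1 := wsum_nonneg hw l
    have h2 := wsum_nonneg hw r
    have h3 := hK v hv
    linarith
  dbl := by
    intro a b xs ps S ha hb hx hp hS _ h1 h2 h3 h4
    have l1 : Real.logb 2 xs ≤ Real.logb 2 ps := Real.logb_le_logb_of_le (by norm_num) hx h1
    have l2 : Real.logb 2 ps ≤ Real.logb 2 S := Real.logb_le_logb_of_le (by norm_num) hp h2
    have l3 : Real.logb 2 a ≤ Real.logb 2 S := Real.logb_le_logb_of_le (by norm_num) ha h3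
    rcases h4 with h4 | h4
    · have := log_amgm ha hb h4
      linarith
    · have := log_amgm hb hx h4
      linarith
  mono := fun a S ha _ h => Real.logb_le_logb_of_le (by norm_num) ha h

theorem wsum_zero {w : ℕ → ℝ} (hw : ∀ v, 0 ≤ w v) {t : BinaryTree ℕ} (h : wsum w t ≤ 0) :
    ∀ v ∈ inorder t, w v = 0 := by
  induction t with
  | nil => intro v hv; simp [inorder] at hv
  | node a l r ihl ihr =>
    have h1 := wsum_nonneg hw l
    have h2 := wsum_nonneg hw r
    have h3 := hw a
    simp only [wsum] at h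
    intro v hv
    rcases mem_inorder_node.mp hv with hv | hv | hv
    · exact ihl (by linarith) v hv
    · rw [hv]; linarith
    · exact ihr (by linarith) v hv

theorem wsum_of_zero {w : ℕ → ℝ} {t : BinaryTree ℕ} (h : ∀ v ∈ inorder t, w v = 0) :
    wsum w t = 0 := by
  rw [wsum_eq]
  apply List.sum_eq_zero
  intro z hz
  obtain ⟨y, hy, rfl⟩ := List.mem_map.mp hz
  exact h y hy

theorem wsum_mono {w w' : ℕ → ℝ} : ∀ {t : BinaryTree ℕ}, (∀ v ∈ inorder t, w' v ≤ w v) →
    wsum w' t ≤ wsum w t
  | .nil, _ => le_refl _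
  | .node a l r, h => by
      have h1 := wsum_mono (t := l) (fun v hv => h v (mem_inorder_node.mpr (Or.inl hv)))
      have h2 := wsum_mono (t := r) (fun v hv => h v (mem_inorder_node.mpr (Or.inr (Or.inr hv))))
      have h3 := h a (mem_inorder_node.mpr (Or.inr (Or.inl rfl)))
      simp only [wsum]
      linarith

/-- Lowering weights (without creating new zeros) lowers the potential. -/
theorem pot_mono {w w' : ℕ → ℝ} (hw' : ∀ v, 0 ≤ w' v) : ∀ {t : BinaryTree ℕ},
    (∀ v ∈ inorder t, w' v ≤ w v) → (∀ v ∈ inorder t, w' v = 0 → w v = 0) →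
    pot w' (Real.logb 2) t ≤ pot w (Real.logb 2) t
  | .nil, _, _ => le_refl _
  | .node a l r, h, h0 => by
      have i1 := pot_mono hw' (t := l) (fun v hv => h v (mem_inorder_node.mpr (Or.inl hv)))
        (fun v hv => h0 v (mem_inorder_node.mpr (Or.inl hv)))
      have i2 := pot_mono hw' (t := r)
        (fun v hv => h v (mem_inorder_node.mpr (Or.inr (Or.inr hv))))
        (fun v hv => h0 v (mem_inorder_node.mpr (Or.inr (Or.inr hv))))
      have h3 := wsum_mono h
      have h4 : Real.logb 2 (wsum w' (.node a l r)) ≤ Real.logb 2 (wsum w (.node a l r)) := by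
        rcases (wsum_nonneg hw' (.node a l r)).lt_or_eq with h5 | h5
        · exact Real.logb_le_logb_of_le (by norm_num) h5 h3
        · have h6 := wsum_zero hw' (t := .node a l r) (by rw [← h5])
          have h7 : wsum w (.node a l r) = 0 := wsum_of_zero fun v hv => h0 v hv (h6 v hv)
          rw [h7, ← h5]
      simp only [wsum] at h4
      simp only [pot]
      linarith

/-- Lower bound for the potential: live keys contribute at least the logarithm of their
weight, the other ones nothing. -/
theorem pot_lower {w : ℕ → ℝ} {K : ℕ → Prop} [DecidablePred K] (hw : ∀ v, 0 ≤ w v)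
    (hK : ∀ v, K v → 0 < w v) : ∀ {t : BinaryTree ℕ}, (∀ v ∈ inorder t, ¬ K v → w v = 0) →
    UC K t → wsum (fun v => if K v then Real.logb 2 (w v) else 0) t ≤ pot w (Real.logb 2) t
  | .nil, _, _ => le_refl _
  | .node a l r, h, hu => by
      obtain ⟨h1, h2, h3, h4⟩ := hu
      have i1 := pot_lower hw hK (t := l) (fun v hv => h v (mem_inorder_node.mpr (Or.inl hv))) h3
      have i2 := pot_lower hw hK (t := r)
        (fun v hv => h v (mem_inorder_node.mpr (Or.inr (Or.inr hv)))) h4
      have nl := wsum_nonneg hw l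
      have nr := wsum_nonneg hw r
      have h5 : (if K a then Real.logb 2 (w a) else 0) ≤
          Real.logb 2 (wsum w l + w a + wsum w r) := by
        by_cases ha : K a
        · rw [if_pos ha]
          exact Real.logb_le_logb_of_le (by norm_num) (hK a ha) (by linarith)
        · rw [if_neg ha]
          have e1 : wsum w l = 0 := wsum_of_zero fun v hv =>
            h v (mem_inorder_node.mpr (Or.inl hv)) (fun hv' => ha (h1 v hv hv'))
          have e2 : wsum w r = 0 := wsum_of_zero fun v hv =>
            h v (mem_inorder_node.mpr (Or.inr (Or.inr hv))) (fun hv' => ha (h2 v hv hv'))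
          have e3 := h a (mem_inorder_node.mpr (Or.inr (Or.inl rfl))) ha
          rw [e1, e2, e3]
          simp
      simp only [wsum, pot]
      linarith

/-- Upper bound for the initial potential. -/
theorem pot_upper {w : ℕ → ℝ} {K : ℕ → Prop} [DecidablePred K] {T : BinaryTree ℕ}
    (hw : ∀ v, 0 ≤ w v) (hK : ∀ v, K v → 0 < w v)
    (hwT : ∀ v, w v ≤ 2 * (1 / 4 : ℝ) ^ depth v T) : ∀ (t : BinaryTree ℕ) (o : ℕ), IsBST t →
    (∀ v ∈ inorder t, depth v T = o + depth v t) → (∀ v ∈ inorder t, ¬ K v → w v = 0) →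
    UC K t →
    pot w (Real.logb 2) t ≤
      wsum (fun v => if K v then (2 - 2 * (depth v T : ℝ)) else 0) t
  | .nil, _, _, _, _, _ => le_refl _
  | .node a l r, o, hb, hd, h, hu => by
      obtain ⟨b1, b2, b3, b4⟩ := isBST_node.mp hb
      obtain ⟨h1, h2, h3, h4⟩ := hu
      have i1 := pot_upper hw hK hwT l (o + 1) b1 (fun v hv => by
          have h5 := hd v (mem_inorder_node.mpr (Or.inl hv))
          have h6 := b3 v hv
          have h7 : v ≠ a := by omega
          simp only [depth, h7, h6, if_true, if_false] at h5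
          omega) (fun v hv => h v (mem_inorder_node.mpr (Or.inl hv))) h3
      have i2 := pot_upper hw hK hwT r (o + 1) b2 (fun v hv => by
          have h5 := hd v (mem_inorder_node.mpr (Or.inr (Or.inr hv)))
          have h6 := b4 v hv
          have h7 : v ≠ a := by omega
          have h8 : ¬ v < a := by omega
          simp only [depth, h7, h8, if_false] at h5
          omega) (fun v hv => h v (mem_inorder_node.mpr (Or.inr (Or.inr hv)))) h4
      have nl := wsum_nonneg hw l
      have nr := wsum_nonneg hw r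
      have h5 : Real.logb 2 (wsum w l + w a + wsum w r) ≤
          (if K a then (2 - 2 * (depth a T : ℝ)) else 0) := by
        by_cases ha : K a
        · rw [if_pos ha]
          have hda : depth a T = o := by
            have := hd a (mem_inorder_node.mpr (Or.inr (Or.inl rfl)))
            simpa [depth] using this
          have h6 : wsum w (.node a l r) ≤ 2 * (2 * (1 / 4 : ℝ) ^ o) := by
            apply geo _ _ _ (by positivity) hb
            intro v hv
            have h7 := hwT v
            rw [hd v hv, pow_add] at h7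
            linarith
          have h7 : 0 < wsum w l + w a + wsum w r := by
            have := hK a ha
            linarith
          simp only [wsum] at h6
          calc Real.logb 2 (wsum w l + w a + wsum w r)
              ≤ Real.logb 2 (4 * (1 / 4 : ℝ) ^ o) :=
                Real.logb_le_logb_of_le (by norm_num) h7 (by linarith)
            _ = 2 - 2 * (o : ℝ) := by
                rw [Real.logb_mul (by norm_num) (quarter_pow_pos o).ne', logb_quarter_pow,
                  show (4 : ℝ) = 2 ^ (2 : ℕ) by norm_num, Real.logb_pow]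
                simp
                ring
            _ = 2 - 2 * (depth a T : ℝ) := by rw [hda]
        · rw [if_neg ha]
          have e1 : wsum w l = 0 := wsum_of_zero fun v hv =>
            h v (mem_inorder_node.mpr (Or.inl hv)) (fun hv' => ha (h1 v hv hv'))
          have e2 : wsum w r = 0 := wsum_of_zero fun v hv =>
            h v (mem_inorder_node.mpr (Or.inr (Or.inr hv))) (fun hv' => ha (h2 v hv hv'))
          have e3 := h a (mem_inorder_node.mpr (Or.inr (Or.inl rfl))) ha
          rw [e1, e2, e3]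
          simp
      simp only [wsum, pot]
      linarith

/-! ## Splaying a sequence of requests -/

/-- The trees met while splaying `X 0, X 1, …`, starting with `T`. -/
def run (X : ℕ → ℕ) (T : BinaryTree ℕ) : ℕ → BinaryTree ℕ
  | 0 => T
  | i + 1 => splay (X i) (run X T i)

theorem splayCost_run (X : ℕ → ℕ) (T : BinaryTree ℕ) : ∀ (m : ℕ) (Y : List ℕ),
    splayCost ((List.range m).map X ++ Y) T =
      (∑ i ∈ Finset.range m, (1 + depth (X i) (run X T i))) + splayCost Y (run X T m)
  | 0, Y => by simp [run]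
  | m + 1, Y => by
      rw [List.range_succ, List.map_append, List.append_assoc]
      rw [splayCost_run X T m, Finset.sum_range_succ]
      simp only [List.map_cons, List.map_nil, List.cons_append, List.nil_append, splayCost, run]
      omega

/-- An execution given by its trees is an execution. -/
theorem exec_of_trees : ∀ (m : ℕ) (T : BinaryTree ℕ) (X e : ℕ → ℕ) (U : ℕ → BinaryTree ℕ),
    U 0 = T → (∀ i < m, RotSeq (e i) (U i) (U (i + 1))) →
    Exec T ((List.range m).map X) (∑ i ∈ Finset.range m, (1 + e i + depth (X i) (U i)))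
  | 0, T, X, e, U, _, _ => by simpa using Exec.nil T
  | m + 1, T, X, e, U, h0, hU => by
      have ih := exec_of_trees m (U 1) (fun i => X (i + 1)) (fun i => e (i + 1))
        (fun i => U (i + 1)) rfl (fun i hi => hU (i + 1) (by omega))
      have h1 := Exec.cons (x := X 0) (hU 0 (by omega)) ih
      rw [h0] at h1
      rw [List.range_succ_eq_map, List.map_cons, List.map_map, Finset.sum_range_succ', h0]
      rw [add_comm] at h1
      exact h1

theorem wsum_count {L : List ℕ} {t : BinaryTree ℕ} (hb : IsBST t) :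
    wsum (fun v => if v ∈ L then (2 : ℝ) else 0) t ≤ 2 * L.length := by
  classical
  have h1 : ∀ l : List ℕ, (l.map (fun v => if v ∈ L then (2 : ℝ) else 0)).sum =
      2 * ((l.filter (fun v => v ∈ L)).length : ℝ) := by
    intro l
    induction l with
    | nil => simp
    | cons a l ih =>
      simp only [List.map_cons, List.sum_cons, ih, List.filter_cons]
      by_cases ha : a ∈ L
      · simp [ha]; ring
      · simp [ha]
  rw [wsum_eq, h1]
  have h2 : (inorder t).Nodup := hb.imp (fun h => Nat.ne_of_lt h)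
  have h3 : ((inorder t).filter (fun v => v ∈ L)).length ≤ L.length := by
    apply List.Subperm.length_le
    apply List.subperm_of_subset (h2.filter _)
    intro v hv
    simpa using (List.mem_filter.mp hv).2
  have h4 : (((inorder t).filter (fun v => v ∈ L)).length : ℝ) ≤ L.length := by
    exact_mod_cast h3
  linarith

/-! ## The main argument -/

section Main

variable {T : BinaryTree ℕ} {m : ℕ} {X e : ℕ → ℕ} {U : ℕ → BinaryTree ℕ} {R : Finset ℕ}

/-- The weights at time `i`. -/
noncomputable def wt (T : BinaryTree ℕ) (X : ℕ → ℕ) (U : ℕ → BinaryTree ℕ) (R : Finset ℕ)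
    (i v : ℕ) : ℝ :=
  (if v ∈ liveKeys R T then (1 / 4 : ℝ) ^ depth v T else 0) +
    (if v ∈ R then (1 / 4 : ℝ) ^ maxDepth X U i v else 0)

theorem wt_nonneg (i v : ℕ) : 0 ≤ wt T X U R i v := by
  unfold wt
  split_ifs <;> positivity

theorem wt_pos {i v : ℕ} (h : v ∈ liveKeys R T) : 0 < wt T X U R i v := by
  unfold wt
  rw [if_pos h]
  split_ifs <;> positivity

theorem wt_zero (hR : ∀ v ∈ R, v ∈ inorder T) {i v : ℕ} (h : v ∉ liveKeys R T) :
    wt T X U R i v = 0 := by
  have h1 : v ∉ R := fun h' => h (mem_liveKeys h' (hR v h'))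
  unfold wt
  rw [if_neg h, if_neg h1, add_zero]

theorem wt_ge {i v : ℕ} (h : v ∈ R) : (1 / 4 : ℝ) ^ maxDepth X U i v ≤ wt T X U R i v := by
  unfold wt
  rw [if_pos h]
  split_ifs
  · have := quarter_pow_pos (depth v T)
    linarith
  · linarith

theorem wt_ge' {i v : ℕ} (h : v ∈ liveKeys R T) :
    (1 / 4 : ℝ) ^ depth v T ≤ wt T X U R i v := by
  unfold wt
  rw [if_pos h]
  split_ifs
  · have := quarter_pow_pos (maxDepth X U i v)
    linarith
  · linarith

theorem wt_mono {i v : ℕ} (h : X i ≠ v) : wt T X U R (i + 1) v ≤ wt T X U R i v := by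
  unfold wt
  have h1 : (if v ∈ R then (1 / 4 : ℝ) ^ maxDepth X U (i + 1) v else 0) ≤
      (if v ∈ R then (1 / 4 : ℝ) ^ maxDepth X U i v else 0) := by
    split_ifs
    · exact quarter_pow_le (maxDepth_succ X U h)
    · exact le_refl _
  linarith

theorem wt_sum (hT : IsBST T) {t : BinaryTree ℕ} (ht : inorder t = inorder T) {i : ℕ}
    (hUi : inorder (U i) = inorder T) : wsum (wt T X U R i) t ≤ 4 := by
  have h1 : wsum (fun v => if v ∈ liveKeys R T then (1 / 4 : ℝ) ^ depth v T else 0) T ≤ 2 * 1 := by
    apply geo _ _ _ (by norm_num) hT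
    intro v _
    split_ifs
    · linarith
    · positivity
  have h2 : wsum (fun v => if v ∈ R then (1 / 4 : ℝ) ^ maxDepth X U i v else 0) (U i) ≤
      2 * 1 := by
    apply geo _ _ _ (by norm_num) (by unfold IsBST; rw [hUi]; exact hT)
    intro v _
    split_ifs
    · have := quarter_pow_le (depth_le_maxDepth X U i v)
      linarith
    · positivity
  rw [wsum_congr ht]
  have h3 := wsum_add (fun v => if v ∈ liveKeys R T then (1 / 4 : ℝ) ^ depth v T else 0)
    (fun v => if v ∈ R then (1 / 4 : ℝ) ^ maxDepth X U i v else 0) T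
  have h4 : wsum (wt T X U R i) T =
    wsum (fun v => (if v ∈ liveKeys R T then (1 / 4 : ℝ) ^ depth v T else 0) +
      (if v ∈ R then (1 / 4 : ℝ) ^ maxDepth X U i v else 0)) T := rfl
  rw [h4, h3, ← wsum_congr (w := fun v => if v ∈ R then (1 / 4 : ℝ) ^ maxDepth X U i v else 0) hUi]
  linarith

theorem logb_four : Real.logb 2 (4 : ℝ) = 2 := by
  rw [show (4 : ℝ) = 2 ^ (2 : ℕ) by norm_num, Real.logb_pow]
  simp

/-- One request. -/
theorem one_step (hT : IsBST T) (hR : ∀ v ∈ R, v ∈ inorder T) {i : ℕ} (hXi : X i ∈ R)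
    (hU1 : inorder (U i) = inorder T) (hU2 : inorder (U (i + 1)) = inorder T)
    {S : BinaryTree ℕ} (hS : inorder S = inorder T)
    (hu : UC (fun v => v ∈ liveKeys R T) S) :
    inorder (splay (X i) S) = inorder T ∧ UC (fun v => v ∈ liveKeys R T) (splay (X i) S) ∧
      (depth (X i) S : ℝ) + pot (wt T X U R (i + 1)) (Real.logb 2) (splay (X i) S) ≤
        pot (wt T X U R i) (Real.logb 2) S + 9 + 8 * peak X U i := by
  have hSb : IsBST S := by unfold IsBST; rw [hS]; exact hT
  have hxS : X i ∈ inorder S := by rw [hS]; exact hR _ hXi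
  have hA := at_of_mem hSb hxS
  have hK : X i ∈ liveKeys R T := mem_liveKeys hXi (hR _ hXi)
  have adm : ∀ j, Adm (wt T X U R j) (Real.logb 2) (fun v => v ∈ liveKeys R T)
      (fun s => 0 < s) := fun j =>
    adm_log (fun v => wt_nonneg j v) (fun v hv => wt_pos hv)
  have hp : PK (fun v => v ∈ liveKeys R T) (X i) S := pk_of_uc hK hu hA
  obtain ⟨a1, a2, a3⟩ := access (adm i) (wt_pos hK) hA hp
  obtain ⟨_, _, b3, _⟩ := subt_valid (adm i) (wt_pos hK) hp
  have l1 : Real.logb 2 (wsum (wt T X U R i) S) ≤ 2 := by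
    obtain ⟨_, v2, _, _⟩ := subt_valid (adm i) (wt_pos hK) hp
    exact (Real.logb_le_logb_of_le (by norm_num) v2 (wt_sum hT hS hU1)).trans logb_four.le
  have l2 : -2 * (peak X U i : ℝ) ≤ Real.logb 2 (wt T X U R i (X i)) := by
    have := Real.logb_le_logb_of_le (b := 2) (by norm_num)
      (quarter_pow_pos (maxDepth X U i (X i))) (wt_ge (T := T) (X := X) (U := U) (i := i) hXi)
    rw [logb_quarter_pow] at this
    exact this
  have l3 : Real.logb 2 (wt T X U R i (X i)) ≤
      Real.logb 2 (wsum (wt T X U R i) (subt (X i) S)) :=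
    Real.logb_le_logb_of_le (by norm_num) (wt_pos hK) b3
  have hS' : inorder (splay (X i) S) = inorder T := a2.trans hS
  refine ⟨hS', uc_splay hA hK hu, ?_⟩
  have key : pot (wt T X U R (i + 1)) (Real.logb 2) (splay (X i) S) ≤
      pot (wt T X U R i) (Real.logb 2) (splay (X i) S) + 2 + 2 * peak X U i := by
    have hb' : IsBST (splay (X i) S) := by unfold IsBST; rw [hS']; exact hT
    generalize splay (X i) S = S' at a1 hS' hb'
    cases S' with
    | nil => simp [At] at a1
    | node a l r =>
      simp only [At] at a1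
      subst a1
      obtain ⟨b1, b2, b3, b4⟩ := isBST_node.mp hb'
      have g0 : ∀ v, wt T X U R (i + 1) v = 0 → wt T X U R i v = 0 := by
        intro v hv
        by_cases hv' : v ∈ liveKeys R T
        · have := wt_pos (X := X) (U := U) (i := i + 1) hv'
          linarith
        · exact wt_zero hR hv'
      have i1 := pot_mono (w := wt T X U R i) (w' := wt T X U R (i + 1))
        (fun v => wt_nonneg (i + 1) v) (t := l)
        (fun v hv => wt_mono (by have := b3 v hv; omega)) (fun v _ => g0 v)
      have i2 := pot_mono (w := wt T X U R i) (w' := wt T X U R (i + 1))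
        (fun v => wt_nonneg (i + 1) v) (t := r)
        (fun v hv => wt_mono (by have := b4 v hv; omega)) (fun v _ => g0 v)
      have s1 := wt_sum (X := X) (R := R) (t := .node (X i) l r) hT hS' hU2
      have n1 := wsum_nonneg (fun v => wt_nonneg (T := T) (X := X) (U := U) (R := R) (i + 1) v) l
      have n2 := wsum_nonneg (fun v => wt_nonneg (T := T) (X := X) (U := U) (R := R) (i + 1) v) r
      have n3 := wsum_nonneg (fun v => wt_nonneg (T := T) (X := X) (U := U) (R := R) i v) l
      have n4 := wsum_nonneg (fun v => wt_nonneg (T := T) (X := X) (U := U) (R := R) i v) r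
      have p1 := wt_pos (X := X) (U := U) (i := i + 1) hK
      have p2 := wt_pos (X := X) (U := U) (i := i) hK
      simp only [wsum] at s1
      have q1 : Real.logb 2 (wsum (wt T X U R (i + 1)) l + wt T X U R (i + 1) (X i) +
          wsum (wt T X U R (i + 1)) r) ≤ 2 := by
        exact (Real.logb_le_logb_of_le (by norm_num) (by linarith) s1).trans logb_four.le
      have q2 : Real.logb 2 (wt T X U R i (X i)) ≤ Real.logb 2 (wsum (wt T X U R i) l +
          wt T X U R i (X i) + wsum (wt T X U R i) r) :=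
        Real.logb_le_logb_of_le (by norm_num) p2 (by linarith)
      simp only [pot]
      linarith
  linarith

theorem inorder_trees (h0 : U 0 = T) (hU : ∀ i < m, RotSeq (e i) (U i) (U (i + 1))) :
    ∀ i ≤ m, inorder (U i) = inorder T
  | 0, _ => by rw [h0]
  | i + 1, hi => by
      rw [inorder_rotSeq (hU i (by omega))]
      exact inorder_trees h0 hU i (by omega)

theorem all_steps (hT : IsBST T) (hR : ∀ v ∈ R, v ∈ inorder T) (hXR : ∀ i < m, X i ∈ R)
    (h0 : U 0 = T) (hU : ∀ i < m, RotSeq (e i) (U i) (U (i + 1))) :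
    ∀ i ≤ m, inorder (run X T i) = inorder T ∧ UC (fun v => v ∈ liveKeys R T) (run X T i) ∧
      (∑ j ∈ Finset.range i, (1 + (depth (X j) (run X T j) : ℝ))) +
        pot (wt T X U R i) (Real.logb 2) (run X T i) ≤
      pot (wt T X U R 0) (Real.logb 2) T +
        ∑ j ∈ Finset.range i, (10 + 8 * (peak X U j : ℝ))
  | 0, _ => by
      refine ⟨rfl, uc_live R hT, ?_⟩
      simp [run]
  | i + 1, hi => by
      obtain ⟨h1, h2, h3⟩ := all_steps hT hR hXR h0 hU i (by omega)
      obtain ⟨g1, g2, g3⟩ := one_step hT hR (hXR i (by omega))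
        (inorder_trees h0 hU i (by omega)) (inorder_trees h0 hU (i + 1) hi) h1 h2
      refine ⟨g1, g2, ?_⟩
      rw [Finset.sum_range_succ, Finset.sum_range_succ]
      simp only [run] at g3 ⊢
      linarith

end Main

theorem peak_bound (T : BinaryTree ℕ) (hT : IsBST T) (m : ℕ) (X : ℕ → ℕ)
    (hX : ∀ i < m, X i ∈ inorder T) (U : ℕ → BinaryTree ℕ) (e : ℕ → ℕ) (hU0 : U 0 = T)
    (hU : ∀ i < m, RotSeq (e i) (U i) (U (i + 1))) :
    splayCost ((List.range m).map X) T ≤
      12 * ∑ i ∈ Finset.range m, (1 + e i + peak X U i) := by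
  classical
  set R : Finset ℕ := ((List.range m).map X).toFinset with hRdef
  have hR : ∀ v ∈ R, v ∈ inorder T := by
    intro v hv
    rw [hRdef, List.mem_toFinset, List.mem_map] at hv
    obtain ⟨i, hi, rfl⟩ := hv
    exact hX i (List.mem_range.mp hi)
  have hXR : ∀ i < m, X i ∈ R := by
    intro i hi
    rw [hRdef, List.mem_toFinset, List.mem_map]
    exact ⟨i, List.mem_range.mpr hi, rfl⟩
  obtain ⟨h1, h2, h3⟩ := all_steps hT hR hXR hU0 hU m le_rfl
  have hexec := exec_of_trees m T X e U hU0 hU
  have hlive := live_le_exec hexec hT (by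
    intro x hx
    obtain ⟨i, hi, rfl⟩ := List.mem_map.mp hx
    exact hX i (List.mem_range.mp hi))
  have up := pot_upper (w := wt T X U R 0) (K := fun v => v ∈ liveKeys R T) (T := T)
    (fun v => wt_nonneg 0 v) (fun v hv => wt_pos hv) (by
      intro v
      have := quarter_pow_le (depth_le_maxDepth X U 0 v)
      rw [hU0] at this
      have := quarter_pow_pos (depth v T)
      unfold wt
      split_ifs <;> linarith) T 0 hT (fun v _ => by omega) (fun v _ hv => wt_zero hR hv)
    (uc_live R hT)
  have lo := pot_lower (w := wt T X U R m) (K := fun v => v ∈ liveKeys R T)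
    (fun v => wt_nonneg m v) (fun v hv => wt_pos hv) (t := run X T m)
    (fun v _ hv => wt_zero hR hv) h2
  have lo' : wsum (fun v => if v ∈ liveKeys R T then -2 * (depth v T : ℝ) else 0) T ≤
      wsum (fun v => if v ∈ liveKeys R T then Real.logb 2 (wt T X U R m v) else 0)
        (run X T m) := by
    rw [← wsum_congr h1]
    apply wsum_mono
    intro v _
    split_ifs with hv
    · have := Real.logb_le_logb_of_le (b := 2) (by norm_num) (quarter_pow_pos (depth v T))
        (wt_ge' (X := X) (U := U) (i := m) hv)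
      rw [logb_quarter_pow] at this
      exact this
    · exact le_refl _
  have split : wsum (fun v => if v ∈ liveKeys R T then (2 - 2 * (depth v T : ℝ)) else 0) T =
      wsum (fun v => if v ∈ liveKeys R T then -2 * (depth v T : ℝ) else 0) T +
      wsum (fun v => if v ∈ liveKeys R T then (2 : ℝ) else 0) T := by
    rw [← wsum_add]
    congr 1
    funext v
    split_ifs <;> ring
  have cnt := wsum_count (L := liveKeys R T) hT
  rw [length_liveKeys] at cnt
  have hcost := splayCost_run X T m []
  rw [List.append_nil] at hcost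
  have e1 : (splayCost ((List.range m).map X) T : ℝ) =
      ∑ j ∈ Finset.range m, (1 + (depth (X j) (run X T j) : ℝ)) := by
    rw [hcost]
    push_cast
    simp [splayCost]
  have e2 : (live R T : ℝ) ≤ ∑ i ∈ Finset.range m, (1 + (e i : ℝ) + (peak X U i : ℝ)) := by
    have h5 : live R T ≤ ∑ i ∈ Finset.range m, (1 + e i + peak X U i) := by
      refine hlive.trans (Finset.sum_le_sum fun i _ => ?_)
      have := depth_le_maxDepth X U i (X i)
      unfold peak
      omega
    calc (live R T : ℝ) ≤ ((∑ i ∈ Finset.range m, (1 + e i + peak X U i) : ℕ) : ℝ) := by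
          exact_mod_cast h5
      _ = _ := by push_cast; rfl
  have e3 : ∑ j ∈ Finset.range m, (10 + 8 * (peak X U j : ℝ)) ≤
      10 * ∑ i ∈ Finset.range m, (1 + (e i : ℝ) + (peak X U i : ℝ)) := by
    rw [Finset.mul_sum]
    apply Finset.sum_le_sum
    intro i _
    have p1 : (0 : ℝ) ≤ e i := Nat.cast_nonneg _
    have p2 : (0 : ℝ) ≤ peak X U i := Nat.cast_nonneg _
    linarith
  have final : (splayCost ((List.range m).map X) T : ℝ) ≤
      12 * ∑ i ∈ Finset.range m, (1 + (e i : ℝ) + (peak X U i : ℝ)) := by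
    rw [e1]
    linarith
  exact_mod_cast final

/-- Let `U 0 = T, U 1, …, U m` be an execution for the requests `X 0, …, X (m - 1)`, with `e i`
rotations from `U i` to `U (i + 1)`.

(1) Splaying costs at most `12` times the cost of the execution, if the depth of the requested
key in `U i` is replaced by its peak depth since its previous request.

(2) Hence splaying is within the factor `12` of every execution in which no requested key rises
between two consecutive requests to it (nor before its first request). -/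
theorem result (T : BinaryTree ℕ) (hT : IsBST T) (m : ℕ) (X : ℕ → ℕ)
    (hX : ∀ i < m, X i ∈ inorder T) (U : ℕ → BinaryTree ℕ) (e : ℕ → ℕ) (hU0 : U 0 = T)
    (hU : ∀ i < m, RotSeq (e i) (U i) (U (i + 1))) :
    splayCost ((List.range m).map X) T ≤
        12 * ∑ i ∈ Finset.range m, (1 + e i + peak X U i) ∧
    ((∀ i < m, ∀ j ≤ i, (∀ k ∈ Finset.Ico j i, X k ≠ X i) →
        depth (X i) (U j) ≤ depth (X i) (U i)) →
      splayCost ((List.range m).map X) T ≤
        12 * ∑ i ∈ Finset.range m, (1 + e i + depth (X i) (U i))) := by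
  have h1 := peak_bound T hT m X hX U e hU0 hU
  refine ⟨h1, fun h => h1.trans (Nat.mul_le_mul_left 12 (Finset.sum_le_sum fun i hi => ?_))⟩
  have h2 : peak X U i ≤ depth (X i) (U i) := by
    unfold peak maxDepth
    apply Finset.sup_le
    intro j hj
    rw [Finset.mem_filter, Finset.mem_range] at hj
    exact h i (Finset.mem_range.mp hi) j (by omega) hj.2
  omega

end Pool.Agent.Results.MP_c42954_lc.PeakDepth
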