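import Pool.Agent.MP_c42954_lc.SplayBasic

set_option autoImplicit false

/-!
# The access lemma for splaying, with weights that may vanish
-/

namespace Pool.Agent.MP_c42954_lc

open BinaryTree

/-! ## Keys, weights, potentials -/

theorem inorder_dbl {x : ℕ} {t t' : BinaryTree ℕ} (h : Dbl x t t') : inorder t' = inorder t := by
  induction h with
  | ll => simp [inorder]
  | lr => simp [inorder]
  | rr => simp [inorder]
  | rl => simp [inorder]
  | inL a r h _ ih => simp [inorder, ih]
  | inR a l h _ ih => simp [inorder, ih]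

theorem inorder_sgl {x : ℕ} {t t' : BinaryTree ℕ} (h : Sgl x t t') : inorder t' = inorder t := by
  cases h <;> simp [inorder]

theorem inorder_rot {t t' : BinaryTree ℕ} (h : Rot t t') : inorder t' = inorder t := by
  induction h with
  | atLeftChild => simp [inorder]
  | atRightChild => simp [inorder]
  | inLeft a r _ ih => simp [inorder, ih]
  | inRight a l _ ih => simp [inorder, ih]

theorem inorder_rotSeq {n : ℕ} {t t' : BinaryTree ℕ} (h : RotSeq n t t') :
    inorder t' = inorder t := by
  induction h with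
  | refl t => rfl
  | step _ h ih => rw [inorder_rot h, ih]

theorem isBST_node {a : ℕ} {l r : BinaryTree ℕ} :
    IsBST (.node a l r) ↔ IsBST l ∧ IsBST r ∧ (∀ y ∈ inorder l, y < a) ∧
      (∀ y ∈ inorder r, a < y) := by
  unfold IsBST
  simp only [inorder, List.pairwise_append, List.pairwise_cons, List.mem_cons, forall_eq_or_imp]
  constructor
  · rintro ⟨h1, ⟨h2, h3⟩, h4⟩
    exact ⟨h1, h3, fun y hy => (h4 y hy).1, h2⟩
  · rintro ⟨h1, h2, h3, h4⟩
    exact ⟨h1, ⟨h4, h2⟩, fun y hy => ⟨h3 y hy, fun z hz => (h3 y hy).trans (h4 z hz)⟩⟩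

theorem at_of_mem {y : ℕ} : ∀ {t : BinaryTree ℕ}, IsBST t → y ∈ inorder t → At y (depth y t) t
  | .nil, _, h => by simp [inorder] at h
  | .node a l r, hb, h => by
      obtain ⟨h1, h2, h3, h4⟩ := isBST_node.mp hb
      simp only [inorder, List.mem_append, List.mem_cons] at h
      rcases h with h | h | h
      · have h5 := h3 y h
        have h6 : y ≠ a := by omega
        simp only [depth, h6, h5, if_true, if_false]
        exact Or.inl ⟨h5, at_of_mem h1 h⟩
      · simp only [depth, h, if_true]
        simp [At]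
      · have h5 := h4 y h
        have h6 : y ≠ a := by omega
        have h7 : ¬ y < a := by omega
        simp only [depth, h6, h7, if_false]
        exact Or.inr ⟨h5, at_of_mem h2 h⟩

theorem mem_of_at {y : ℕ} : ∀ {d : ℕ} {t : BinaryTree ℕ}, At y d t → y ∈ inorder t
  | _, .nil, h => by simp [At] at h
  | 0, .node a l r, h => by
      simp only [At] at h
      simp [inorder, h]
  | d + 1, .node a l r, h => by
      rcases h with ⟨_, h⟩ | ⟨_, h⟩
      · have := mem_of_at h
        simp [inorder, this]
      · have := mem_of_at h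
        simp [inorder, this]

/-- Total weight of the keys of a tree. -/
noncomputable def wsum (w : ℕ → ℝ) : BinaryTree ℕ → ℝ
  | .nil => 0
  | .node a l r => wsum w l + w a + wsum w r

theorem wsum_eq (w : ℕ → ℝ) : ∀ t : BinaryTree ℕ, wsum w t = ((inorder t).map w).sum
  | .nil => by simp [wsum, inorder]
  | .node a l r => by simp [wsum, inorder, wsum_eq w l, wsum_eq w r, add_assoc]

theorem wsum_congr {w : ℕ → ℝ} {t t' : BinaryTree ℕ} (h : inorder t' = inorder t) :
    wsum w t' = wsum w t := by
  rw [wsum_eq, wsum_eq, h]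

theorem wsum_nonneg {w : ℕ → ℝ} (hw : ∀ v, 0 ≤ w v) : ∀ t : BinaryTree ℕ, 0 ≤ wsum w t
  | .nil => le_refl _
  | .node a l r => by
      have h1 := wsum_nonneg hw l
      have h2 := wsum_nonneg hw r
      have h3 := hw a
      simp only [wsum]
      linarith

/-- The potential: sum of `ρ` of the total weight below each node. -/
noncomputable def pot (w : ℕ → ℝ) (ρ : ℝ → ℝ) : BinaryTree ℕ → ℝ
  | .nil => 0
  | .node a l r => pot w ρ l + pot w ρ r + ρ (wsum w l + w a + wsum w r)

/-- The subtree rooted at `x` (found along the search path). -/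
def subt (x : ℕ) : BinaryTree ℕ → BinaryTree ℕ
  | .nil => .nil
  | .node a l r => if x = a then .node a l r else if x < a then subt x l else subt x r

/-- All keys on the search path to `x` (down to `x`) satisfy `K`. -/
def PK (K : ℕ → Prop) (x : ℕ) : BinaryTree ℕ → Prop
  | .nil => False
  | .node a l r => K a ∧ (x = a ∨ (x < a ∧ PK K x l) ∨ (a < x ∧ PK K x r))

theorem pk_true {x : ℕ} : ∀ {d : ℕ} {t : BinaryTree ℕ}, At x d t → PK (fun _ => True) x t
  | _, .nil, h => by simp [At] at h
  | 0, .node a l r, h => by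
      simp only [At] at h
      exact ⟨trivial, Or.inl h⟩
  | d + 1, .node a l r, h => by
      rcases h with ⟨h1, h⟩ | ⟨h1, h⟩
      · exact ⟨trivial, Or.inr (Or.inl ⟨h1, pk_true h⟩)⟩
      · exact ⟨trivial, Or.inr (Or.inr ⟨h1, pk_true h⟩)⟩

theorem pk_dbl {K : ℕ → Prop} {x : ℕ} {t t' : BinaryTree ℕ} (h : Dbl x t t') (hp : PK K x t) :
    PK K x t' := by
  induction h with
  | ll z y p q c r h1 h2 =>
    obtain ⟨_, h3 | ⟨_, _, h4 | ⟨_, h5, _⟩ | ⟨h4, _⟩⟩ | ⟨h3, _⟩⟩ := hp
    · omega
    · omega
    · exact ⟨h5, Or.inl rfl⟩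
    · omega
    · omega
  | lr z y a p q r h1 h2 =>
    obtain ⟨_, h3 | ⟨_, _, h4 | ⟨h4, _⟩ | ⟨_, h5, _⟩⟩ | ⟨h3, _⟩⟩ := hp
    · omega
    · omega
    · omega
    · exact ⟨h5, Or.inl rfl⟩
    · omega
  | rr z y l a p q h1 h2 =>
    obtain ⟨_, h3 | ⟨h3, _⟩ | ⟨_, _, h4 | ⟨h4, _⟩ | ⟨_, h5, _⟩⟩⟩ := hp
    · omega
    · omega
    · omega
    · omega
    · exact ⟨h5, Or.inl rfl⟩
  | rl z y l p q c h1 h2 =>
    obtain ⟨_, h3 | ⟨h3, _⟩ | ⟨_, _, h4 | ⟨_, h5, _⟩ | ⟨h4, _⟩⟩⟩ := hp
    · omega
    · omega
    · omega
    · exact ⟨h5, Or.inl rfl⟩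
    · omega
  | inL a r h _ ih =>
    obtain ⟨h1, h3 | ⟨_, h4⟩ | ⟨h3, _⟩⟩ := hp
    · omega
    · exact ⟨h1, Or.inr (Or.inl ⟨h, ih h4⟩)⟩
    · omega
  | inR a l h _ ih =>
    obtain ⟨h1, h3 | ⟨h3, _⟩ | ⟨_, h4⟩⟩ := hp
    · omega
    · omega
    · exact ⟨h1, Or.inr (Or.inr ⟨h, ih h4⟩)⟩

theorem pk_sgl {K : ℕ → Prop} {x : ℕ} {t t' : BinaryTree ℕ} (h : Sgl x t t') (hp : PK K x t) :
    PK K x t' := by
  cases h with
  | l z p q r h1 =>
    obtain ⟨_, h3 | ⟨_, h5, _⟩ | ⟨h3, _⟩⟩ := hp
    · omega
    · exact ⟨h5, Or.inl rfl⟩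
    · omega
  | r z l p q h1 =>
    obtain ⟨_, h3 | ⟨h3, _⟩ | ⟨_, h5, _⟩⟩ := hp
    · omega
    · omega
    · exact ⟨h5, Or.inl rfl⟩

/-- What is needed of the weights `w`, the function `ρ` and the set `K` of keys. -/
structure Adm (w : ℕ → ℝ) (ρ : ℝ → ℝ) (K : ℕ → Prop) (V : ℝ → Prop) : Prop where
  nonneg : ∀ v, 0 ≤ w v
  valid : ∀ v l r, K v → V (wsum w l + w v + wsum w r)
  dbl : ∀ a b xs ps S : ℝ, V a → V b → V xs → V ps → V S → 0 < xs → xs ≤ ps → ps ≤ S → a ≤ S →
    (a + b ≤ S ∨ b + xs ≤ S) → 2 + ρ a + ρ b - ρ xs - ρ ps ≤ 3 * (ρ S - ρ xs)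
  mono : ∀ a S : ℝ, V a → V S → a ≤ S → ρ a ≤ ρ S

variable {w : ℕ → ℝ} {ρ : ℝ → ℝ} {K : ℕ → Prop} {V : ℝ → Prop}

theorem dbl_pot (A : Adm w ρ K V) {x : ℕ} (hx : 0 < w x) {t t' : BinaryTree ℕ}
    (h : Dbl x t t') (hp : PK K x t) :
    2 + pot w ρ t' - pot w ρ t ≤
      3 * (ρ (wsum w (subt x t')) - ρ (wsum w (subt x t))) := by
  induction h with
  | ll z y p q c r h1 h2 =>
    obtain ⟨kz, h3 | ⟨_, ky, h4 | ⟨_, kx, _⟩ | ⟨h4, _⟩⟩ | ⟨h3, _⟩⟩ := hp
    · omega
    · omega
    · have e1 : x ≠ z := by omega
      have e2 : x ≠ y := by omega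
      have np := wsum_nonneg A.nonneg p
      have nq := wsum_nonneg A.nonneg q
      have nc := wsum_nonneg A.nonneg c
      have nr := wsum_nonneg A.nonneg r
      have nz := A.nonneg z
      have ny := A.nonneg y
      have vx := A.valid x p q kx
      have vy := A.valid y (.node x p q) c ky
      have vz := A.valid z (.node y (.node x p q) c) r kz
      have vz' := A.valid z c r kz
      have vy' := A.valid y q (.node z c r) ky
      have vx' := A.valid x p (.node y q (.node z c r)) kx
      have eS : wsum w p + w x + wsum w (.node y q (.node z c r)) =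
          wsum w (.node y (.node x p q) c) + w z + wsum w r := by
        simp only [wsum]; ring
      have key := A.dbl _ _ _ _ _ vy' vz' vx vy vx' (by linarith)
        (by simp only [wsum]; linarith) (by simp only [wsum]; linarith)
        (by simp only [wsum]; linarith) (Or.inr (by simp only [wsum]; linarith))
      rw [← eS] at *
      simp only [subt, e1, e2, h1, h2, if_true, if_false, pot, wsum] at *
      rw [show wsum w p + w x + wsum w q + w y + wsum w c + w z + wsum w r =
        wsum w p + w x + (wsum w q + w y + (wsum w c + w z + wsum w r)) by ring]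
      linarith
    · omega
    · omega
  | lr z y a p q r h1 h2 =>
    obtain ⟨kz, h3 | ⟨_, ky, h4 | ⟨h4, _⟩ | ⟨_, kx, _⟩⟩ | ⟨h3, _⟩⟩ := hp
    · omega
    · omega
    · omega
    · have e1 : x ≠ z := by omega
      have e2 : x ≠ y := by omega
      have e3 : ¬ x < y := by omega
      have np := wsum_nonneg A.nonneg p
      have nq := wsum_nonneg A.nonneg q
      have na := wsum_nonneg A.nonneg a
      have nr := wsum_nonneg A.nonneg r
      have nz := A.nonneg z
      have ny := A.nonneg y
      have vx := A.valid x p q kx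
      have vy := A.valid y a (.node x p q) ky
      have vy' := A.valid y a p ky
      have vz' := A.valid z q r kz
      have vx' := A.valid x (.node y a p) (.node z q r) kx
      have key := A.dbl _ _ _ _ _ vy' vz' vx vy vx' (by linarith)
        (by simp only [wsum]; linarith) (by simp only [wsum]; linarith)
        (by simp only [wsum]; linarith) (Or.inl (by simp only [wsum]; linarith))
      simp only [subt, e1, e2, e3, h1, if_true, if_false, pot, wsum] at *
      rw [show wsum w a + w y + (wsum w p + w x + wsum w q) + w z + wsum w r =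
        wsum w a + w y + wsum w p + w x + (wsum w q + w z + wsum w r) by ring]
      linarith
    · omega
  | rr z y l a p q h1 h2 =>
    obtain ⟨kz, h3 | ⟨h3, _⟩ | ⟨_, ky, h4 | ⟨h4, _⟩ | ⟨_, kx, _⟩⟩⟩ := hp
    · omega
    · omega
    · omega
    · omega
    · have e1 : x ≠ z := by omega
      have e2 : x ≠ y := by omega
      have e3 : ¬ x < y := by omega
      have e4 : ¬ x < z := by omega
      have np := wsum_nonneg A.nonneg p
      have nq := wsum_nonneg A.nonneg q
      have na := wsum_nonneg A.nonneg a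
      have nl := wsum_nonneg A.nonneg l
      have nz := A.nonneg z
      have ny := A.nonneg y
      have vx := A.valid x p q kx
      have vy := A.valid y a (.node x p q) ky
      have vz' := A.valid z l a kz
      have vy' := A.valid y (.node z l a) p ky
      have vx' := A.valid x (.node y (.node z l a) p) q kx
      have key := A.dbl _ _ _ _ _ vy' vz' vx vy vx' (by linarith)
        (by simp only [wsum]; linarith) (by simp only [wsum]; linarith)
        (by simp only [wsum]; linarith) (Or.inr (by simp only [wsum]; linarith))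
      simp only [subt, e1, e2, e3, e4, if_true, if_false, pot, wsum] at *
      rw [show wsum w l + w z + (wsum w a + w y + (wsum w p + w x + wsum w q)) =
        wsum w l + w z + wsum w a + w y + wsum w p + w x + wsum w q by ring]
      linarith
  | rl z y l p q c h1 h2 =>
    obtain ⟨kz, h3 | ⟨h3, _⟩ | ⟨_, ky, h4 | ⟨_, kx, _⟩ | ⟨h4, _⟩⟩⟩ := hp
    · omega
    · omega
    · omega
    · have e1 : x ≠ z := by omega
      have e2 : x ≠ y := by omega
      have e4 : ¬ x < z := by omega
      have np := wsum_nonneg A.nonneg p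
      have nq := wsum_nonneg A.nonneg q
      have nc := wsum_nonneg A.nonneg c
      have nl := wsum_nonneg A.nonneg l
      have nz := A.nonneg z
      have ny := A.nonneg y
      have vx := A.valid x p q kx
      have vy := A.valid y (.node x p q) c ky
      have vy' := A.valid y q c ky
      have vz' := A.valid z l p kz
      have vx' := A.valid x (.node z l p) (.node y q c) kx
      have key := A.dbl _ _ _ _ _ vy' vz' vx vy vx' (by linarith)
        (by simp only [wsum]; linarith) (by simp only [wsum]; linarith)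
        (by simp only [wsum]; linarith) (Or.inl (by simp only [wsum]; linarith))
      simp only [subt, e1, e2, e4, h2, if_true, if_false, pot, wsum] at *
      rw [show wsum w l + w z + (wsum w p + w x + wsum w q + w y + wsum w c) =
        wsum w l + w z + wsum w p + w x + (wsum w q + w y + wsum w c) by ring]
      linarith
    · omega
  | inL a r h hd ih =>
    obtain ⟨h1, h3 | ⟨_, h4⟩ | ⟨h3, _⟩⟩ := hp
    · omega
    · have e1 : x ≠ a := by omega
      have := ih h4
      have e := wsum_congr (w := w) (inorder_dbl hd)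
      simp only [pot, subt, e1, h, if_true, if_false, e]
      linarith
    · omega
  | inR a l h hd ih =>
    obtain ⟨h1, h3 | ⟨h3, _⟩ | ⟨_, h4⟩⟩ := hp
    · omega
    · omega
    · have e1 : x ≠ a := by omega
      have e2 : ¬ x < a := by omega
      have := ih h4
      have e := wsum_congr (w := w) (inorder_dbl hd)
      simp only [pot, subt, e1, e2, if_false, e]
      linarith

theorem sgl_pot (A : Adm w ρ K V) {x : ℕ} {t t' : BinaryTree ℕ}
    (h : Sgl x t t') (hp : PK K x t) :
    pot w ρ t' - pot w ρ t ≤ ρ (wsum w t') - ρ (wsum w (subt x t)) := by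
  cases h with
  | l z p q r h1 =>
    obtain ⟨kz, h3 | ⟨_, kx, _⟩ | ⟨h3, _⟩⟩ := hp
    · omega
    · have e1 : x ≠ z := by omega
      have np := wsum_nonneg A.nonneg p
      have nx := A.nonneg x
      have vz := A.valid z q r kz
      have vx := A.valid x p (.node z q r) kx
      have key := A.mono _ _ vz vx (by simp only [wsum]; linarith)
      simp only [subt, e1, h1, if_true, if_false, pot, wsum] at *
      rw [show wsum w p + w x + wsum w q + w z + wsum w r =
        wsum w p + w x + (wsum w q + w z + wsum w r) by ring]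
      linarith
    · omega
  | r z l p q h1 =>
    obtain ⟨kz, h3 | ⟨h3, _⟩ | ⟨_, kx, _⟩⟩ := hp
    · omega
    · omega
    · have e1 : x ≠ z := by omega
      have e2 : ¬ x < z := by omega
      have nq := wsum_nonneg A.nonneg q
      have nx := A.nonneg x
      have vz := A.valid z l p kz
      have vx := A.valid x (.node z l p) q kx
      have key := A.mono _ _ vz vx (by simp only [wsum]; linarith)
      simp only [subt, e1, e2, if_true, if_false, pot, wsum] at *
      rw [show wsum w l + w z + (wsum w p + w x + wsum w q) =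
        wsum w l + w z + wsum w p + w x + wsum w q by ring]
      linarith

theorem subt_of_at0 {x : ℕ} {t : BinaryTree ℕ} (h : At x 0 t) : subt x t = t := by
  cases t with
  | nil => simp [At] at h
  | node a l r =>
    simp only [At] at h
    simp [subt, h]

theorem iter_root {x : ℕ} {t : BinaryTree ℕ} (h : At x 0 t) (n : ℕ) :
    (splayStep x)^[n] t = t := by
  induction n with
  | zero => rfl
  | succ n ih => rw [Function.iterate_succ_apply, step_root h, ih]

theorem subt_valid (A : Adm w ρ K V) {x : ℕ} (hx : 0 < w x) : ∀ {t : BinaryTree ℕ}, PK K x t →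
    V (wsum w (subt x t)) ∧ V (wsum w t) ∧ w x ≤ wsum w (subt x t) ∧
      wsum w (subt x t) ≤ wsum w t
  | .nil, h => h.elim
  | .node a l r, h => by
      obtain ⟨ka, h⟩ := h
      have va := A.valid a l r ka
      have nl := wsum_nonneg A.nonneg l
      have nr := wsum_nonneg A.nonneg r
      have na := A.nonneg a
      rcases h with h | ⟨h, h'⟩ | ⟨h, h'⟩
      · subst h
        simp only [subt, if_true, wsum]
        exact ⟨va, va, by linarith, le_refl _⟩
      · have e1 : x ≠ a := by omega
        obtain ⟨h1, h2, h3, h4⟩ := subt_valid A hx h'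
        simp only [subt, e1, h, if_true, if_false]
        exact ⟨h1, va, h3, by simp only [wsum]; linarith⟩
      · have e1 : x ≠ a := by omega
        have e2 : ¬ x < a := by omega
        obtain ⟨h1, h2, h3, h4⟩ := subt_valid A hx h'
        simp only [subt, e1, e2, if_false]
        exact ⟨h1, va, h3, by simp only [wsum]; linarith⟩

/-- The access lemma, for the iterated steps. -/
theorem access_iter (A : Adm w ρ K V) {x : ℕ} (hx : 0 < w x) :
    ∀ (d n : ℕ) (t : BinaryTree ℕ), d ≤ n → At x d t → PK K x t →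
      At x 0 ((splayStep x)^[n] t) ∧ inorder ((splayStep x)^[n] t) = inorder t ∧
      (d : ℝ) + pot w ρ ((splayStep x)^[n] t) ≤
        pot w ρ t + 3 * (ρ (wsum w t) - ρ (wsum w (subt x t))) + 1
  | 0, n, t, _, hA, hp => by
      rw [iter_root hA, subt_of_at0 hA]
      refine ⟨hA, rfl, ?_⟩
      push_cast
      linarith
  | 1, n, t, hn, hA, hp => by
      obtain ⟨n, rfl⟩ : ∃ k, n = k + 1 := ⟨n - 1, by omega⟩
      have hs := sgl_step hA
      rw [Function.iterate_succ_apply, iter_root (at_sgl hs)]
      have h1 := sgl_pot A hs hp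
      have h2 := wsum_congr (w := w) (inorder_sgl hs)
      obtain ⟨v1, v2, _, h5⟩ := subt_valid A hx hp
      have h3 := A.mono _ _ v1 v2 h5
      refine ⟨at_sgl hs, inorder_sgl hs, ?_⟩
      rw [h2] at h1
      push_cast
      linarith
  | d + 2, n, t, hn, hA, hp => by
      obtain ⟨n, rfl⟩ : ∃ k, n = k + 1 := ⟨n - 1, by omega⟩
      have hs := dbl_step hA
      rw [Function.iterate_succ_apply]
      obtain ⟨h1, h2, h3⟩ := access_iter A hx d n (splayStep x t) (by omega)
        (at_dbl hs hA) (pk_dbl hs hp)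
      have h4 := dbl_pot A hx hs hp
      have h5 := wsum_congr (w := w) (inorder_dbl hs)
      refine ⟨h1, h2.trans (inorder_dbl hs), ?_⟩
      rw [h5] at h3
      push_cast at h3 ⊢
      linarith

/-- The access lemma. -/
theorem access (A : Adm w ρ K V) {x : ℕ} (hx : 0 < w x) {d : ℕ} {t : BinaryTree ℕ}
    (hA : At x d t) (hp : PK K x t) :
    At x 0 (splay x t) ∧ inorder (splay x t) = inorder t ∧
      (d : ℝ) + pot w ρ (splay x t) ≤
        pot w ρ t + 3 * (ρ (wsum w t) - ρ (wsum w (subt x t))) + 1 := by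
  have := access_iter A hx d (depth x t) t (at_depth hA).ge hA hp
  exact this

end Pool.Agent.MP_c42954_lc
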