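import Mathlib

set_option autoImplicit false

/-!
# A lower bound for the competitive constant of splay trees

Keys are natural numbers; a binary search tree is a `BinaryTree ℕ` whose symmetric order is
strictly increasing.  All notions below follow the problem file of `MP_c42954_lc`.
-/

namespace Pool.Agent.Results.MP_c42954_lc.RatioLowerBound

open BinaryTree

/-- The keys of a tree in symmetric order. -/
def inorder : BinaryTree ℕ → List ℕ
  | .nil => []
  | .node a l r => inorder l ++ a :: inorder r

/-- Binary search trees: the symmetric order is strictly increasing. -/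
def IsBST (t : BinaryTree ℕ) : Prop := (inorder t).Pairwise (· < ·)

/-- Depth of the key `x` (number of edges from the root), read off along the search path. -/
def depth (x : ℕ) : BinaryTree ℕ → ℕ
  | .nil => 0
  | .node a l r => if x = a then 0 else if x < a then depth x l + 1 else depth x r + 1

/-- `Rot t t'`: the tree `t'` arises from `t` by one rotation, at any non-root node. -/
inductive Rot : BinaryTree ℕ → BinaryTree ℕ → Prop
  | atLeftChild (a b : ℕ) (A B C : BinaryTree ℕ) :
      Rot (.node a (.node b A B) C) (.node b A (.node a B C))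
  | atRightChild (a b : ℕ) (A B C : BinaryTree ℕ) :
      Rot (.node b A (.node a B C)) (.node a (.node b A B) C)
  | inLeft (a : ℕ) {l l' : BinaryTree ℕ} (r : BinaryTree ℕ) :
      Rot l l' → Rot (.node a l r) (.node a l' r)
  | inRight (a : ℕ) (l : BinaryTree ℕ) {r r' : BinaryTree ℕ} :
      Rot r r' → Rot (.node a l r) (.node a l r')

/-- One splaying step at the key `x`.
* `x` is the root (or absent): nothing happens.
* The parent of `x` is the root: rotate at `x` (zig).
* `x` has parent `y` and grandparent `z` on the same side: rotate at `y`, then at `x` (zig-zig).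
* `x` has parent `y` and grandparent `z` on different sides: rotate at `x` twice (zig-zag).
* `x` lies deeper: the same step is carried out further down, inside the subtree holding `x`. -/
def splayStep (x : ℕ) : BinaryTree ℕ → BinaryTree ℕ
  | .nil => .nil
  | .node z l r =>
    if x = z then .node z l r
    else if x < z then
      match l with
      | .nil => .node z .nil r
      | .node y a c =>
        if x = y then .node y a (.node z c r)
        else if x < y then
          match a with
          | .nil => .node z (.node y .nil c) r
          | .node w p q =>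
            if x = w then .node w p (.node y q (.node z c r))
            else .node z (splayStep x l) r
        else
          match c with
          | .nil => .node z (.node y a .nil) r
          | .node w p q =>
            if x = w then .node w (.node y a p) (.node z q r)
            else .node z (splayStep x l) r
    else
      match r with
      | .nil => .node z l .nil
      | .node y a c =>
        if x = y then .node y (.node z l a) c
        else if y < x then
          match c with
          | .nil => .node z l (.node y a .nil)
          | .node w p q =>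
            if x = w then .node w (.node y (.node z l a) p) q
            else .node z l (splayStep x r)
        else
          match a with
          | .nil => .node z l (.node y .nil c)
          | .node w p q =>
            if x = w then .node w (.node z l p) (.node y q c)
            else .node z l (splayStep x r)

/-- Splaying `x`: splaying steps at `x` are repeated until `x` is the root.  (Every step
lowers the depth of `x`, and a step does nothing once `x` is the root, so `depth x t` steps
are enough and more do no harm.) -/
def splay (x : ℕ) (t : BinaryTree ℕ) : BinaryTree ℕ := (splayStep x)^[depth x t] t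

/-- `cost_splay(X, T)`: each request costs one plus the depth of the requested key. -/
def splayCost : List ℕ → BinaryTree ℕ → ℕ
  | [], _ => 0
  | x :: X, T => (1 + depth x T) + splayCost X (splay x T)

/-- `RotSeq n t t'`: exactly `n` rotations, performed one after another, turn `t` into `t'`. -/
inductive RotSeq : ℕ → BinaryTree ℕ → BinaryTree ℕ → Prop
  | refl (t : BinaryTree ℕ) : RotSeq 0 t t
  | step {n : ℕ} {t u v : BinaryTree ℕ} : RotSeq n t u → Rot u v → RotSeq (n + 1) t v

/-- `Exec T X c`: there is an execution for `(X, T)` of cost `c`.  For the first request `x`,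
`e` rotations turn `T` into `T'` and `x` is searched for in `T`, which costs
`1 + e + depth x T`; then the remaining requests are served from `T'`. -/
inductive Exec : BinaryTree ℕ → List ℕ → ℕ → Prop
  | nil (T : BinaryTree ℕ) : Exec T [] 0
  | cons {T T' : BinaryTree ℕ} {x : ℕ} {X : List ℕ} {e c : ℕ} :
      RotSeq e T T' → Exec T' X c → Exec T (x :: X) (1 + e + depth x T + c)

/-- `OPT(X, T)`: the minimum cost over all executions for `(X, T)`. -/
noncomputable def OPT (X : List ℕ) (T : BinaryTree ℕ) : ℕ := sInf {c | Exec T X c}

/-! ## Positions along the search path -/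

/-- `x` is found at depth `d`. -/
def At (x : ℕ) : ℕ → BinaryTree ℕ → Prop
  | _, .nil => False
  | 0, .node a _ _ => x = a
  | d + 1, .node a l r => (x < a ∧ At x d l) ∨ (a < x ∧ At x d r)

theorem at_depth {x : ℕ} : ∀ {d : ℕ} {t : BinaryTree ℕ}, At x d t → depth x t = d
  | 0, .nil, h => by simp [At] at h
  | d + 1, .nil, h => by simp [At] at h
  | 0, .node a l r, h => by
      simp only [At] at h
      simp [depth, h]
  | d + 1, .node a l r, h => by
      simp only [At] at h
      rcases h with ⟨h1, h2⟩ | ⟨h1, h2⟩
      · have := at_depth h2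
        have hne : x ≠ a := by omega
        simp [depth, hne, h1, this]
      · have := at_depth h2
        have hne : x ≠ a := by omega
        have hnl : ¬ x < a := by omega
        simp [depth, hne, hnl, this]

theorem step_left {x a : ℕ} {t s : BinaryTree ℕ} {d : ℕ} (hx : x < a) (h : At x (d + 2) t) :
    splayStep x (.node a t s) = .node a (splayStep x t) s := by
  cases t with
  | nil => simp [At] at h
  | node b l r =>
    have hne : x ≠ a := by omega
    rcases h with ⟨h1, h2⟩ | ⟨h1, h2⟩
    · cases l with
      | nil => simp [At] at h2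
      | node c u v =>
        have h3 : x ≠ c := by
          rcases h2 with ⟨h3, _⟩ | ⟨h3, _⟩ <;> omega
        have h4 : x ≠ b := by omega
        conv_lhs => rw [splayStep.eq_def]
        simp [hne, hx, h1, h3, h4]
    · cases r with
      | nil => simp [At] at h2
      | node c u v =>
        have h3 : x ≠ c := by
          rcases h2 with ⟨h3, _⟩ | ⟨h3, _⟩ <;> omega
        have h4 : x ≠ b := by omega
        have h5 : ¬ x < b := by omega
        conv_lhs => rw [splayStep.eq_def]
        simp [hne, hx, h3, h4, h5]

theorem step_right {x a : ℕ} {t s : BinaryTree ℕ} {d : ℕ} (hx : a < x) (h : At x (d + 2) t) :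
    splayStep x (.node a s t) = .node a s (splayStep x t) := by
  cases t with
  | nil => simp [At] at h
  | node b l r =>
    have hne : x ≠ a := by omega
    have hnl : ¬ x < a := by omega
    rcases h with ⟨h1, h2⟩ | ⟨h1, h2⟩
    · cases l with
      | nil => simp [At] at h2
      | node c u v =>
        have h3 : x ≠ c := by
          rcases h2 with ⟨h3, _⟩ | ⟨h3, _⟩ <;> omega
        have h4 : x ≠ b := by omega
        have h5 : ¬ b < x := by omega
        conv_lhs => rw [splayStep.eq_def]
        simp [hne, hnl, h3, h4, h5]
    · cases r with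
      | nil => simp [At] at h2
      | node c u v =>
        have h3 : x ≠ c := by
          rcases h2 with ⟨h3, _⟩ | ⟨h3, _⟩ <;> omega
        have h4 : x ≠ b := by omega
        conv_lhs => rw [splayStep.eq_def]
        simp [hne, hnl, h1, h3, h4]

theorem step_root {x : ℕ} {t : BinaryTree ℕ} (h : At x 0 t) : splayStep x t = t := by
  cases t with
  | nil => simp [At] at h
  | node b l r =>
    simp only [At] at h
    rw [splayStep.eq_def]
    simp [h]

theorem at_step {x : ℕ} : ∀ {d : ℕ} {t : BinaryTree ℕ}, At x (d + 2) t → At x d (splayStep x t)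
  | d, .nil, h => by simp [At] at h
  | 0, .node a (.node b l r) s, h => by
      rcases h with ⟨h1, ⟨h2, h3⟩ | ⟨h2, h3⟩⟩ | ⟨h1, h2⟩
      · cases l with
        | nil => simp [At] at h3
        | node c u v =>
          simp only [At] at h3
          subst h3
          have e1 : x ≠ a := by omega
          have e2 : x ≠ b := by omega
          rw [splayStep.eq_def]
          simp [e1, e2, h1, h2, At]
      · cases r with
        | nil => simp [At] at h3
        | node c u v =>
          simp only [At] at h3
          subst h3
          have e1 : x ≠ a := by omega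
          have e2 : x ≠ b := by omega
          have e3 : ¬ x < b := by omega
          rw [splayStep.eq_def]
          simp [e1, e2, h1, e3, At]
      · cases s with
        | nil => simp [At] at h2
        | node c u v =>
          have e1 : x ≠ a := by omega
          have e2 : ¬ x < a := by omega
          rcases h2 with ⟨h3, h4⟩ | ⟨h3, h4⟩
          · cases u with
            | nil => simp [At] at h4
            | node w p q =>
              simp only [At] at h4
              subst h4
              have e3 : x ≠ c := by omega
              have e4 : ¬ c < x := by omega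
              rw [splayStep.eq_def]
              simp [e1, e2, e3, e4, At]
          · cases v with
            | nil => simp [At] at h4
            | node w p q =>
              simp only [At] at h4
              subst h4
              have e3 : x ≠ c := by omega
              rw [splayStep.eq_def]
              simp [e1, e2, e3, h3, At]
  | 0, .node a .nil s, h => by
      rcases h with ⟨h1, h2⟩ | ⟨h1, h2⟩
      · simp [At] at h2
      · cases s with
        | nil => simp [At] at h2
        | node c u v =>
          have e1 : x ≠ a := by omega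
          have e2 : ¬ x < a := by omega
          rcases h2 with ⟨h3, h4⟩ | ⟨h3, h4⟩
          · cases u with
            | nil => simp [At] at h4
            | node w p q =>
              simp only [At] at h4
              subst h4
              have e3 : x ≠ c := by omega
              have e4 : ¬ c < x := by omega
              rw [splayStep.eq_def]
              simp [e1, e2, e3, e4, At]
          · cases v with
            | nil => simp [At] at h4
            | node w p q =>
              simp only [At] at h4
              subst h4
              have e3 : x ≠ c := by omega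
              rw [splayStep.eq_def]
              simp [e1, e2, e3, h3, At]
  | d + 1, .node a l r, h => by
      rcases h with ⟨h1, h2⟩ | ⟨h1, h2⟩
      · rw [step_left h1 h2]
        exact Or.inl ⟨h1, at_step h2⟩
      · rw [step_right h1 h2]
        exact Or.inr ⟨h1, at_step h2⟩

theorem iter_root {x : ℕ} {t : BinaryTree ℕ} (h : At x 0 t) (n : ℕ) :
    (splayStep x)^[n] t = t := by
  induction n with
  | zero => rfl
  | succ n ih => rw [Function.iterate_succ_apply, step_root h, ih]

theorem at_iter {x : ℕ} : ∀ {m : ℕ} {t : BinaryTree ℕ}, At x (2 * m) t →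
    At x 0 ((splayStep x)^[m] t)
  | 0, t, h => h
  | m + 1, t, h => by
      rw [Function.iterate_succ_apply]
      exact at_iter (at_step (d := 2 * m) h)

theorem splay_eq {x m : ℕ} {t : BinaryTree ℕ} (h : At x (2 * m) t) :
    splay x t = (splayStep x)^[m] t := by
  have h0 := at_iter h
  rw [splay, at_depth h, two_mul, Function.iterate_add_apply, iter_root h0]

/-- The zig-zig pattern to the left. -/
theorem iter_zigzig_left {x p y : ℕ} (hp : x < p) (hy : p < y) {l' r' l₂ r₂ : BinaryTree ℕ} :
    ∀ {m : ℕ} {L : BinaryTree ℕ}, At x (2 * m) L →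
      (splayStep x)^[m] L = .node x l₂ r₂ →
      (splayStep x)^[m + 1] (.node y (.node p L l') r') = .node x l₂ (.node p r₂ (.node y l' r'))
  | 0, L, _, h => by
      simp only [Function.iterate_zero, id_eq] at h
      subst h
      have e1 : x ≠ y := by omega
      have e2 : x < y := by omega
      have e3 : x ≠ p := by omega
      rw [Function.iterate_succ_apply, Function.iterate_zero, id_eq, splayStep.eq_def]
      simp [e1, e2, e3, hp]
  | m + 1, L, hA, h => by
      have hA' : At x (2 * m + 2) L := hA
      have e2 : x < y := by omega
      rw [Function.iterate_succ_apply,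
        step_left (d := 2 * m + 1) e2 (show At x (2 * m + 1 + 2) (.node p L l') from Or.inl ⟨hp, hA'⟩), step_left hp hA']
      exact iter_zigzig_left hp hy (at_step hA') (by rwa [Function.iterate_succ_apply] at h)

/-- The zig-zig pattern to the right. -/
theorem iter_zigzig_right {x p y : ℕ} (hp : x < p) (hy : p < y) {l r l₂ r₂ : BinaryTree ℕ} :
    ∀ {m : ℕ} {H : BinaryTree ℕ}, At y (2 * m) H →
      (splayStep y)^[m] H = .node y l₂ r₂ →
      (splayStep y)^[m + 1] (.node x l (.node p r H)) = .node y (.node p (.node x l r) l₂) r₂
  | 0, H, _, h => by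
      simp only [Function.iterate_zero, id_eq] at h
      subst h
      have e1 : y ≠ x := by omega
      have e2 : ¬ y < x := by omega
      have e3 : y ≠ p := by omega
      rw [Function.iterate_succ_apply, Function.iterate_zero, id_eq, splayStep.eq_def]
      simp [e1, e2, e3, hy]
  | m + 1, H, hA, h => by
      have hA' : At y (2 * m + 2) H := hA
      have e2 : x < y := by omega
      rw [Function.iterate_succ_apply,
        step_right (d := 2 * m + 1) e2 (show At y (2 * m + 1 + 2) (.node p r H) from Or.inr ⟨hy, hA'⟩), step_right hy hA']
      exact iter_zigzig_right hp hy (at_step hA') (by rwa [Function.iterate_succ_apply] at h)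

/-! ## The request sequences attached to full binary trees -/

/-- Full binary trees. -/
inductive FB
  | leaf : FB
  | fork : FB → FB → FB

/-- Number of keys used: one for each leaf and one pad for each fork. -/
def FB.size : FB → ℕ
  | .leaf => 1
  | .fork l r => l.size + r.size + 1

/-- The `t`-th request; `o` is the smallest key. -/
def FB.req : FB → ℕ → ℕ → ℕ
  | .leaf, o, _ => o
  | .fork l r, o, t =>
    if t % 2 = 0 then l.req o (t / 2) else r.req (o + l.size + 1) (t / 2)

/-- The depth in the full binary tree of the leaf requested at time `t`. -/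
def FB.lev : FB → ℕ → ℕ
  | .leaf, _ => 0
  | .fork l r, t => (if t % 2 = 0 then l.lev (t / 2) else r.lev (t / 2)) + 1

/-- A non-empty tree from a triple. -/
def mk (s : ℕ × BinaryTree ℕ × BinaryTree ℕ) : BinaryTree ℕ := .node s.1 s.2.1 s.2.2

/-- The splay tree before request number `t`. -/
def FB.st : FB → ℕ → ℕ → ℕ × BinaryTree ℕ × BinaryTree ℕ
  | .leaf, o, _ => (o, .nil, .nil)
  | .fork l r, o, t =>
    if t % 2 = 0 then
      ((r.st (o + l.size + 1) (t / 2)).1,
        .node (o + l.size) (mk (l.st o (t / 2))) (r.st (o + l.size + 1) (t / 2)).2.1,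
        (r.st (o + l.size + 1) (t / 2)).2.2)
    else
      ((l.st o (t / 2 + 1)).1, (l.st o (t / 2 + 1)).2.1,
        .node (o + l.size) (l.st o (t / 2 + 1)).2.2 (mk (r.st (o + l.size + 1) (t / 2))))

theorem size_pos : ∀ B : FB, 0 < B.size
  | .leaf => by simp [FB.size]
  | .fork l r => by simp [FB.size]

theorem req_bounds : ∀ (B : FB) (o t : ℕ), o ≤ B.req o t ∧ B.req o t < o + B.size
  | .leaf, o, t => by simp [FB.req, FB.size]
  | .fork l r, o, t => by
      simp only [FB.req, FB.size]
      split_ifs
      · have := req_bounds l o (t / 2); omega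
      · have := req_bounds r (o + l.size + 1) (t / 2); omega

theorem root_bounds : ∀ (B : FB) (o t : ℕ), o ≤ (B.st o t).1 ∧ (B.st o t).1 < o + B.size
  | .leaf, o, t => by simp [FB.st, FB.size]
  | .fork l r, o, t => by
      simp only [FB.st, FB.size]
      split_ifs
      · have := root_bounds r (o + l.size + 1) (t / 2)
        dsimp only; omega
      · have := root_bounds l o (t / 2 + 1)
        dsimp only; omega

theorem inorder_st : ∀ (B : FB) (o t : ℕ), inorder (mk (B.st o t)) = List.range' o B.size
  | .leaf, o, t => by simp [FB.st, FB.size, mk, inorder]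
  | .fork l r, o, t => by
      have key : List.range' o (l.size + r.size + 1)
          = List.range' o l.size ++ (o + l.size) :: List.range' (o + l.size + 1) r.size := by
        have h1 : l.size + r.size + 1 = l.size + (r.size + 1) := by ring
        rw [h1, ← List.range'_append_1 (s := o) (m := l.size) (n := r.size + 1)]
        congr 1
      simp only [FB.st, FB.size]
      rw [key]
      split_ifs
      · have h1 := inorder_st l o (t / 2)
        have h2 := inorder_st r (o + l.size + 1) (t / 2)
        simp only [mk, inorder] at h1 h2 ⊢
        rw [← h1, ← h2]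
        simp
      · have h1 := inorder_st l o (t / 2 + 1)
        have h2 := inorder_st r (o + l.size + 1) (t / 2)
        simp only [mk, inorder] at h1 h2 ⊢
        rw [← h1, ← h2]
        simp

/-- The key invariant: splaying the requested key costs exactly twice its level, and leads to
the next tree of the family. -/
theorem invariant : ∀ (B : FB) (o t : ℕ),
    At (B.req o t) (2 * B.lev t) (mk (B.st o t)) ∧
      (splayStep (B.req o t))^[B.lev t] (mk (B.st o t)) = mk (B.st o (t + 1)) ∧
      (B.st o (t + 1)).1 = B.req o t
  | .leaf, o, t => by simp [FB.req, FB.lev, FB.st, mk, At]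
  | .fork l r, o, t => by
      rcases Nat.even_or_odd' t with ⟨s, rfl | rfl⟩
      · -- low request
        have h1 : 2 * s % 2 = 0 := by omega
        have h2 : 2 * s / 2 = s := by omega
        have h3 : (2 * s + 1) % 2 ≠ 0 := by omega
        have h4 : (2 * s + 1) / 2 = s := by omega
        obtain ⟨i1, i2, i3⟩ := invariant l o s
        have b1 := req_bounds l o s
        have b2 := root_bounds r (o + l.size + 1) s
        have hp : l.req o s < o + l.size := b1.2
        have hy : o + l.size < (r.st (o + l.size + 1) s).1 := by omega
        simp only [FB.req, FB.lev, FB.st, h1, h2, h3, h4, if_true, if_false, mk]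
        refine ⟨?_, ?_, i3⟩
        · refine Or.inl ⟨by omega, ?_⟩
          exact Or.inl ⟨hp, i1⟩
        · have i2' : (splayStep (l.req o s))^[l.lev s] (mk (l.st o s))
              = .node (l.req o s) (l.st o (s + 1)).2.1 (l.st o (s + 1)).2.2 := by
            rw [i2, mk, i3]
          have := iter_zigzig_left (l' := (r.st (o + l.size + 1) s).2.1)
            (r' := (r.st (o + l.size + 1) s).2.2) hp hy i1 i2'
          rw [mk] at this
          rw [this, i3]
      · -- high request
        have h1 : (2 * s + 1) % 2 ≠ 0 := by omega
        have h2 : (2 * s + 1) / 2 = s := by omega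
        have h3 : (2 * s + 1 + 1) % 2 = 0 := by omega
        have h4 : (2 * s + 1 + 1) / 2 = s + 1 := by omega
        obtain ⟨i1, i2, i3⟩ := invariant r (o + l.size + 1) s
        have b1 := req_bounds r (o + l.size + 1) s
        have b2 := root_bounds l o (s + 1)
        have hy : o + l.size < r.req (o + l.size + 1) s := by omega
        have hp : (l.st o (s + 1)).1 < o + l.size := by omega
        simp only [FB.req, FB.lev, FB.st, h1, h2, h3, h4, if_true, if_false, mk]
        refine ⟨?_, ?_, i3⟩
        · refine Or.inr ⟨by omega, ?_⟩
          exact Or.inr ⟨hy, i1⟩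
        · have i2' : (splayStep (r.req (o + l.size + 1) s))^[r.lev s]
              (mk (r.st (o + l.size + 1) s))
              = .node (r.req (o + l.size + 1) s) (r.st (o + l.size + 1) (s + 1)).2.1
                (r.st (o + l.size + 1) (s + 1)).2.2 := by
            rw [i2, mk, i3]
          have := iter_zigzig_right (l := (l.st o (s + 1)).2.1)
            (r := (l.st o (s + 1)).2.2) hp hy i1 i2'
          rw [mk] at this
          rw [this, i3]

/-- The list of `n` requests starting at time `t`. -/
def reqs (B : FB) (o t : ℕ) : ℕ → List ℕ
  | 0 => []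
  | n + 1 => B.req o t :: reqs B o (t + 1) n

theorem splayCost_reqs (B : FB) (o : ℕ) : ∀ (n t : ℕ),
    splayCost (reqs B o t n) (mk (B.st o t)) = ∑ i ∈ Finset.range n, (1 + 2 * B.lev (t + i))
  | 0, t => by simp [reqs, splayCost]
  | n + 1, t => by
      obtain ⟨i1, i2, _⟩ := invariant B o t
      rw [reqs, splayCost, at_depth i1, splay_eq i1, i2, splayCost_reqs B o n (t + 1),
        Finset.sum_range_succ']
      have : ∀ i, t + 1 + i = t + (i + 1) := by intro i; ring
      simp only [this, add_zero]
      ring

/-! ## Rotations connect all trees with the same symmetric order -/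

/-- The right spine with the given keys. -/
def spine : List ℕ → BinaryTree ℕ
  | [] => .nil
  | a :: l => .node a .nil (spine l)

theorem rot_symm {t t' : BinaryTree ℕ} (h : Rot t t') : Rot t' t := by
  induction h with
  | atLeftChild a b A B C => exact Rot.atRightChild a b A B C
  | atRightChild a b A B C => exact Rot.atLeftChild a b A B C
  | inLeft a r _ ih => exact Rot.inLeft a r ih
  | inRight a l _ ih => exact Rot.inRight a l ih

theorem rtg_symm {t t' : BinaryTree ℕ} (h : Relation.ReflTransGen Rot t t') :
    Relation.ReflTransGen Rot t' t := by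
  induction h with
  | refl => exact Relation.ReflTransGen.refl
  | tail _ h2 ih => exact Relation.ReflTransGen.head (rot_symm h2) ih

theorem rtg_left (a : ℕ) (r : BinaryTree ℕ) {l l' : BinaryTree ℕ}
    (h : Relation.ReflTransGen Rot l l') :
    Relation.ReflTransGen Rot (.node a l r) (.node a l' r) := by
  induction h with
  | refl => exact Relation.ReflTransGen.refl
  | tail _ h2 ih => exact ih.tail (Rot.inLeft a r h2)

theorem rtg_right (a : ℕ) (l : BinaryTree ℕ) {r r' : BinaryTree ℕ}
    (h : Relation.ReflTransGen Rot r r') :
    Relation.ReflTransGen Rot (.node a l r) (.node a l r') := by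
  induction h with
  | refl => exact Relation.ReflTransGen.refl
  | tail _ h2 ih => exact ih.tail (Rot.inRight a l h2)

theorem rtg_spine_merge (a : ℕ) (rs : List ℕ) : ∀ ls : List ℕ,
    Relation.ReflTransGen Rot (.node a (spine ls) (spine rs)) (spine (ls ++ a :: rs))
  | [] => Relation.ReflTransGen.refl
  | b :: ls => by
      refine Relation.ReflTransGen.head (Rot.atLeftChild a b .nil (spine ls) (spine rs)) ?_
      exact rtg_right b .nil (rtg_spine_merge a rs ls)

theorem rtg_spine : ∀ t : BinaryTree ℕ, Relation.ReflTransGen Rot t (spine (inorder t))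
  | .nil => Relation.ReflTransGen.refl
  | .node a l r => by
      refine (rtg_left a r (rtg_spine l)).trans ?_
      refine (rtg_right a _ (rtg_spine r)).trans ?_
      exact rtg_spine_merge a (inorder r) (inorder l)

theorem rotSeq_of_rtg {t t' : BinaryTree ℕ} (h : Relation.ReflTransGen Rot t t') :
    ∃ n, RotSeq n t t' := by
  induction h with
  | refl => exact ⟨0, RotSeq.refl _⟩
  | tail _ h2 ih =>
    obtain ⟨n, hn⟩ := ih
    exact ⟨n + 1, RotSeq.step hn h2⟩

theorem exists_rotSeq {t t' : BinaryTree ℕ} (h : inorder t = inorder t') :
    ∃ n, RotSeq n t t' :=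
  rotSeq_of_rtg ((rtg_spine t).trans (h ▸ rtg_symm (rtg_spine t')))

/-! ## Static executions -/

theorem exec_static (D : BinaryTree ℕ) : ∀ X : List ℕ,
    Exec D X ((X.map fun x => 1 + depth x D).sum)
  | [] => by simpa using Exec.nil D
  | x :: X => by
      have := Exec.cons (x := x) (RotSeq.refl D) (exec_static D X)
      simpa using this

theorem exec_switch {T D : BinaryTree ℕ} {e : ℕ} (h : RotSeq e T D) (x : ℕ) (X : List ℕ) :
    Exec T (x :: X) (1 + e + depth x T + (X.map fun x => 1 + depth x D).sum) :=
  Exec.cons h (exec_static D X)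

/-! ## The special family -/

/-- `fam (j+1)` consists of two copies of `fam j` and one more leaf, of depth two. -/
def fam : ℕ → FB
  | 0 => .leaf
  | j + 1 => .fork (.fork (fam j) .leaf) (fam j)

/-- Insert a new largest key. -/
def insMax (p : ℕ) : BinaryTree ℕ → BinaryTree ℕ
  | .nil => .node p .nil .nil
  | .node a l r => .node a l (insMax p r)

/-- Insert a new smallest key. -/
def insMin (p : ℕ) : BinaryTree ℕ → BinaryTree ℕ
  | .nil => .node p .nil .nil
  | .node a l r => .node a (insMin p l) r

theorem inorder_insMax (p : ℕ) : ∀ t, inorder (insMax p t) = inorder t ++ [p]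
  | .nil => by simp [insMax, inorder]
  | .node a l r => by simp [insMax, inorder, inorder_insMax p r]

theorem inorder_insMin (p : ℕ) : ∀ t, inorder (insMin p t) = p :: inorder t
  | .nil => by simp [insMin, inorder]
  | .node a l r => by simp [insMin, inorder, inorder_insMin p l]

theorem at_insMax (p x : ℕ) : ∀ {d : ℕ} {t : BinaryTree ℕ}, At x d t → At x d (insMax p t)
  | _, .nil, h => by simp [At] at h
  | 0, .node a l r, h => h
  | d + 1, .node a l r, h => by
      rcases h with h | ⟨h1, h2⟩
      · exact Or.inl h
      · exact Or.inr ⟨h1, at_insMax p x h2⟩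

theorem at_insMin (p x : ℕ) : ∀ {d : ℕ} {t : BinaryTree ℕ}, At x d t → At x d (insMin p t)
  | _, .nil, h => by simp [At] at h
  | 0, .node a l r, h => h
  | d + 1, .node a l r, h => by
      rcases h with ⟨h1, h2⟩ | h
      · exact Or.inl ⟨h1, at_insMin p x h2⟩
      · exact Or.inr h

/-- The static tree for `fam j`; `o` is the smallest key. -/
def stat : ℕ → ℕ → BinaryTree ℕ
  | 0, o => .node o .nil .nil
  | j + 1, o => .node (o + (fam j).size + 1)
      (insMax (o + (fam j).size) (stat j o))
      (insMin (o + (fam j).size + 2) (stat j (o + (fam j).size + 3)))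

/-- Depth in the static tree of the key requested at time `t`. -/
def sdep : ℕ → ℕ → ℕ
  | 0, _ => 0
  | j + 1, t =>
    if t % 2 = 0 then (if t / 2 % 2 = 0 then sdep j (t / 2 / 2) + 1 else 0)
    else sdep j (t / 2) + 1

theorem size_fam_succ (j : ℕ) : (fam (j + 1)).size = 2 * (fam j).size + 3 := by
  simp [fam, FB.size]; ring

theorem inorder_stat : ∀ j o, inorder (stat j o) = List.range' o (fam j).size
  | 0, o => by simp [stat, inorder, fam, FB.size]
  | j + 1, o => by
      rw [size_fam_succ]
      simp only [stat, inorder, inorder_insMax, inorder_insMin, inorder_stat j]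
      have h1 : 2 * (fam j).size + 3 = (fam j).size + (3 + (fam j).size) := by ring
      rw [h1, ← List.range'_append_1 (s := o) (m := (fam j).size) (n := 3 + (fam j).size),
        ← List.range'_append_1 (s := o + (fam j).size) (m := 3) (n := (fam j).size)]
      simp [List.range'_succ, add_assoc]

theorem at_stat : ∀ j o t, At ((fam j).req o t) (sdep j t) (stat j o)
  | 0, o, t => by simp [fam, FB.req, sdep, stat, At]
  | j + 1, o, t => by
      simp only [fam, FB.req, sdep, stat, FB.size]
      by_cases h1 : t % 2 = 0
      · by_cases h2 : t / 2 % 2 = 0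
        · simp only [h1, h2, if_true]
          have b := req_bounds (fam j) o (t / 2 / 2)
          exact Or.inl ⟨by omega, at_insMax _ _ (at_stat j o _)⟩
        · simp only [h1, h2, if_true, if_false]
          simp [At]
      · simp only [h1, if_false]
        have b := req_bounds (fam j) (o + ((fam j).size + 1 + 1) + 1) (t / 2)
        refine Or.inr ⟨by omega, at_insMin _ _ ?_⟩
        have e : o + ((fam j).size + 1 + 1) + 1 = o + (fam j).size + 3 := by ring
        rw [e]
        exact at_stat j _ _

/-! ## Counting -/

theorem sum_split (f : ℕ → ℕ) (n : ℕ) :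
    ∑ t ∈ Finset.range (2 * n), f t
      = ∑ s ∈ Finset.range n, f (2 * s) + ∑ s ∈ Finset.range n, f (2 * s + 1) := by
  induction n with
  | zero => simp
  | succ n ih =>
    rw [show 2 * (n + 1) = 2 * n + 1 + 1 by ring, Finset.sum_range_succ, Finset.sum_range_succ,
      Finset.sum_range_succ, Finset.sum_range_succ, ih]
    ring

theorem sum_lev_succ (j n : ℕ) :
    ∑ t ∈ Finset.range (4 * n), (fam (j + 1)).lev t
      = 6 * n + (∑ s ∈ Finset.range n, (fam j).lev s + ∑ s ∈ Finset.range (2 * n), (fam j).lev s) := by
  rw [show 4 * n = 2 * (2 * n) by ring, sum_split, sum_split (fun s => (fam (j + 1)).lev (2 * s))]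
  have e1 : ∀ s, (fam (j + 1)).lev (2 * (2 * s)) = (fam j).lev s + 2 := by
    intro s
    simp only [fam, FB.lev]
    have a1 : 2 * (2 * s) % 2 = 0 := by omega
    have a2 : 2 * (2 * s) / 2 = 2 * s := by omega
    have a3 : 2 * s % 2 = 0 := by omega
    have a4 : 2 * s / 2 = s := by omega
    simp [a1, a2, a3, a4]
  have e2 : ∀ s, (fam (j + 1)).lev (2 * (2 * s + 1)) = 2 := by
    intro s
    simp only [fam, FB.lev]
    have a1 : 2 * (2 * s + 1) % 2 = 0 := by omega
    have a2 : 2 * (2 * s + 1) / 2 = 2 * s + 1 := by omega
    have a3 : (2 * s + 1) % 2 ≠ 0 := by omega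
    simp [a1, a2, a3]
  have e3 : ∀ s, (fam (j + 1)).lev (2 * s + 1) = (fam j).lev s + 1 := by
    intro s
    simp only [fam, FB.lev]
    have a1 : (2 * s + 1) % 2 ≠ 0 := by omega
    have a2 : (2 * s + 1) / 2 = s := by omega
    simp [a1, a2]
  simp only [e1, e2, e3, Finset.sum_add_distrib, Finset.sum_const, Finset.card_range, smul_eq_mul]
  ring

theorem sum_sdep_succ (j n : ℕ) :
    ∑ t ∈ Finset.range (4 * n), sdep (j + 1) t
      = 3 * n + (∑ s ∈ Finset.range n, sdep j s + ∑ s ∈ Finset.range (2 * n), sdep j s) := by
  rw [show 4 * n = 2 * (2 * n) by ring, sum_split, sum_split (fun s => sdep (j + 1) (2 * s))]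
  have e1 : ∀ s, sdep (j + 1) (2 * (2 * s)) = sdep j s + 1 := by
    intro s
    simp only [sdep]
    have a1 : 2 * (2 * s) % 2 = 0 := by omega
    have a2 : 2 * (2 * s) / 2 = 2 * s := by omega
    have a3 : 2 * s % 2 = 0 := by omega
    have a4 : 2 * s / 2 = s := by omega
    simp [a1, a2, a3, a4]
  have e2 : ∀ s, sdep (j + 1) (2 * (2 * s + 1)) = 0 := by
    intro s
    simp only [sdep]
    have a1 : 2 * (2 * s + 1) % 2 = 0 := by omega
    have a2 : 2 * (2 * s + 1) / 2 = 2 * s + 1 := by omega
    have a3 : (2 * s + 1) % 2 ≠ 0 := by omega
    simp [a1, a2, a3]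
  have e3 : ∀ s, sdep (j + 1) (2 * s + 1) = sdep j s + 1 := by
    intro s
    simp only [sdep]
    have a1 : (2 * s + 1) % 2 ≠ 0 := by omega
    have a2 : (2 * s + 1) / 2 = s := by omega
    simp [a1, a2]
  simp only [e1, e2, e3, Finset.sum_add_distrib, Finset.sum_const, Finset.card_range, smul_eq_mul]
  ring

/-- The mean level of the family. -/
noncomputable def hval (j : ℕ) : ℝ := 6 * (1 - (3 / 4 : ℝ) ^ j)

theorem sum_lev (j : ℕ) : ∀ M : ℕ,
    ((∑ t ∈ Finset.range (4 ^ j * M), (fam j).lev t : ℕ) : ℝ) = (4 ^ j * M : ℕ) * hval j := by
  induction j with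
  | zero => intro M; simp [fam, FB.lev, hval]
  | succ j ih =>
    intro M
    rw [show 4 ^ (j + 1) * M = 4 * (4 ^ j * M) by ring, sum_lev_succ]
    have h1 := ih M
    have h2 := ih (2 * M)
    rw [show 4 ^ j * (2 * M) = 2 * (4 ^ j * M) by ring] at h2
    push_cast at h1 h2 ⊢
    rw [h1, h2]
    simp only [hval]
    ring

theorem sum_sdep (j : ℕ) : ∀ M : ℕ,
    ((∑ t ∈ Finset.range (4 ^ j * M), sdep j t : ℕ) : ℝ) = (4 ^ j * M : ℕ) * (hval j / 2) := by
  induction j with
  | zero => intro M; simp [sdep, hval]
  | succ j ih =>
    intro M
    rw [show 4 ^ (j + 1) * M = 4 * (4 ^ j * M) by ring, sum_sdep_succ]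
    have h1 := ih M
    have h2 := ih (2 * M)
    rw [show 4 ^ j * (2 * M) = 2 * (4 ^ j * M) by ring] at h2
    push_cast at h1 h2 ⊢
    rw [h1, h2]
    simp only [hval]
    ring

theorem map_reqs (j o : ℕ) : ∀ (n t : ℕ),
    ((reqs (fam j) o t n).map fun x => 1 + depth x (stat j o)).sum
      = ∑ i ∈ Finset.range n, (1 + sdep j (t + i))
  | 0, t => by simp [reqs]
  | n + 1, t => by
      rw [reqs, List.map_cons, List.sum_cons, map_reqs j o n (t + 1), at_depth (at_stat j o t),
        Finset.sum_range_succ']
      have : ∀ i, t + 1 + i = t + (i + 1) := by intro i; ring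
      simp only [this, add_zero]
      ring

theorem mem_reqs (B : FB) (o : ℕ) : ∀ (n t : ℕ) (x : ℕ), x ∈ reqs B o t n →
    x ∈ List.range' o B.size
  | 0, t, x, h => by simp [reqs] at h
  | n + 1, t, x, h => by
      rw [reqs, List.mem_cons] at h
      rcases h with rfl | h
      · have := req_bounds B o t
        rw [List.mem_range'_1]
        exact this
      · exact mem_reqs B o n (t + 1) x h

/-- OPT is at most a constant plus the static cost. -/
theorem opt_le (j : ℕ) : ∃ K : ℕ, ∀ n : ℕ, 0 < n →
    OPT (reqs (fam j) 0 0 n) (mk ((fam j).st 0 0))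
      ≤ K + ∑ i ∈ Finset.range n, (1 + sdep j i) := by
  obtain ⟨e, he⟩ := exists_rotSeq (t := mk ((fam j).st 0 0)) (t' := stat j 0)
    (by rw [inorder_st, inorder_stat])
  refine ⟨e + depth ((fam j).req 0 0) (mk ((fam j).st 0 0)), ?_⟩
  intro n hn
  obtain ⟨m, rfl⟩ : ∃ m, n = m + 1 := ⟨n - 1, by omega⟩
  have h1 := exec_switch he ((fam j).req 0 0) (reqs (fam j) 0 1 m)
  have h2 : OPT (reqs (fam j) 0 0 (m + 1)) (mk ((fam j).st 0 0)) ≤
      1 + e + depth ((fam j).req 0 0) (mk ((fam j).st 0 0))
        + ((reqs (fam j) 0 1 m).map fun x => 1 + depth x (stat j 0)).sum := by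
    apply Nat.sInf_le
    exact h1
  rw [map_reqs] at h2
  have h3 : ∑ i ∈ Finset.range (m + 1), (1 + sdep j i)
      = ∑ i ∈ Finset.range m, (1 + sdep j (1 + i)) + (1 + sdep j 0) := by
    rw [Finset.sum_range_succ']
    congr 1
    apply Finset.sum_congr rfl
    intro i _
    rw [add_comm i 1]
  rw [h3]
  omega

/-- **Lower bound on the competitive constant of splay trees.**  For every real `c < 13/4`
there is a binary search tree `T` such that, for every real `K`, some request sequence `X` of
keys of `T` satisfies `cost_splay(X, T) > c * OPT(X, T) + K`. -/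
theorem result : ∀ c : ℝ, c < 13 / 4 →
    ∃ T : BinaryTree ℕ, T ≠ .nil ∧ IsBST T ∧ ∀ K : ℝ, ∃ X : List ℕ, (∀ x ∈ X, x ∈ inorder T) ∧
      c * (OPT X T : ℝ) + K < (splayCost X T : ℝ) := by
  intro c hc
  -- a family member that is good enough
  obtain ⟨j, hj⟩ : ∃ j : ℕ, max c 1 * (1 + hval j / 2) < 1 + 2 * hval j := by
    have hlim : Filter.Tendsto (fun j : ℕ => (1 + 2 * hval j) - max c 1 * (1 + hval j / 2))
        Filter.atTop (nhds ((1 + 2 * (6 * (1 - 0))) - max c 1 * (1 + (6 * (1 - 0)) / 2))) := by
      have h0 : Filter.Tendsto (fun j : ℕ => (3 / 4 : ℝ) ^ j) Filter.atTop (nhds 0) :=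
        tendsto_pow_atTop_nhds_zero_of_lt_one (by norm_num) (by norm_num)
      have h1 : Filter.Tendsto hval Filter.atTop (nhds (6 * (1 - 0))) :=
        (h0.const_sub 1).const_mul 6
      exact ((h1.const_mul 2).const_add 1).sub (((h1.div_const 2).const_add 1).const_mul _)
    have hpos : 0 < (1 + 2 * (6 * (1 - 0))) - max c 1 * (1 + (6 * (1 - (0 : ℝ))) / 2) := by
      have : max c 1 < 13 / 4 := max_lt hc (by norm_num)
      linarith
    obtain ⟨j, hj⟩ := (hlim.eventually (lt_mem_nhds hpos)).exists
    exact ⟨j, by linarith⟩
  refine ⟨mk ((fam j).st 0 0), by simp [mk], ?_, ?_⟩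
  · rw [IsBST, inorder_st]
    exact List.pairwise_lt_range'
  intro K'
  obtain ⟨K, hK⟩ := opt_le j
  -- a number of repetitions that is large enough
  obtain ⟨M, hM⟩ := exists_nat_gt
    ((max c 1 * K + |K'|) / (1 + 2 * hval j - max c 1 * (1 + hval j / 2)))
  have hden : 0 < 1 + 2 * hval j - max c 1 * (1 + hval j / 2) := by linarith
  rw [div_lt_iff₀ hden] at hM
  have hc1 : (1 : ℝ) ≤ max c 1 := le_max_right _ _
  have hM0 : 0 < M := by
    rcases Nat.eq_zero_or_pos M with rfl | h
    · have : (0 : ℝ) ≤ max c 1 * K + |K'| := by positivity
      simp only [Nat.cast_zero, zero_mul] at hM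
      linarith
    · exact h
  set N : ℕ := 4 ^ j * M with hN
  have hN0 : 0 < N := by positivity
  have hNM : (M : ℝ) ≤ N := by
    rw [hN]
    exact_mod_cast Nat.le_mul_of_pos_left M (by positivity)
  refine ⟨reqs (fam j) 0 0 N, ?_, ?_⟩
  · intro x hx
    rw [inorder_st]
    exact mem_reqs _ _ _ _ _ hx
  · rw [splayCost_reqs]
    have hL : ((∑ i ∈ Finset.range N, (1 + 2 * (fam j).lev (0 + i)) : ℕ) : ℝ)
        = N * (1 + 2 * hval j) := by
      have := sum_lev j M
      rw [← hN] at this
      push_cast at this ⊢
      simp only [zero_add, Finset.sum_add_distrib, ← Finset.mul_sum, this, Finset.sum_const,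
        Finset.card_range, nsmul_eq_mul]
      ring
    have hS : ((∑ i ∈ Finset.range N, (1 + sdep j i) : ℕ) : ℝ) = N * (1 + hval j / 2) := by
      have := sum_sdep j M
      rw [← hN] at this
      push_cast at this ⊢
      simp only [Finset.sum_add_distrib, this, Finset.sum_const,
        Finset.card_range, nsmul_eq_mul]
      ring
    have hO : (OPT (reqs (fam j) 0 0 N) (mk ((fam j).st 0 0)) : ℝ)
        ≤ K + N * (1 + hval j / 2) := by
      rw [← hS]
      exact_mod_cast hK N hN0
    rw [hL]
    calc c * (OPT (reqs (fam j) 0 0 N) (mk ((fam j).st 0 0)) : ℝ) + K'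
        ≤ max c 1 * (OPT (reqs (fam j) 0 0 N) (mk ((fam j).st 0 0)) : ℝ) + |K'| :=
          add_le_add (mul_le_mul_of_nonneg_right (le_max_left _ _) (Nat.cast_nonneg _))
            (le_abs_self K')
      _ ≤ max c 1 * (K + N * (1 + hval j / 2)) + |K'| := by
          have := mul_le_mul_of_nonneg_left hO (show (0 : ℝ) ≤ max c 1 by linarith)
          linarith
      _ < N * (1 + 2 * hval j) := by
          have : (M : ℝ) * (1 + 2 * hval j - max c 1 * (1 + hval j / 2))
              ≤ N * (1 + 2 * hval j - max c 1 * (1 + hval j / 2)) :=
            mul_le_mul_of_nonneg_right hNM hden.le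
          nlinarith

end Pool.Agent.Results.MP_c42954_lc.RatioLowerBound
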