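import Mathlib

set_option autoImplicit false

/-!
# Splay trees: the model of the problem `MP_c42954_lc`

Keys are natural numbers; a binary search tree is a `BinaryTree ℕ` whose symmetric order is
strictly increasing.
-/

namespace Pool.Agent.MP_c42954_lc

open BinaryTree

/-- The keys of a tree in symmetric order. -/
def inorder : BinaryTree ℕ → List ℕ
  | .nil => []
  | .node a l r => inorder l ++ a :: inorder r

/-- Binary search trees: the symmetric order is strictly increasing. -/
def IsBST (t : BinaryTree ℕ) : Prop := (inorder t).Pairwise (· < ·)

/-- Depth of the key `x` (number of edges from the root), read off along the search path. -/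
def depth (x : ℕ) : BinaryTree ℕ → ℕ
  | .nil => 0
  | .node a l r => if x = a then 0 else if x < a then depth x l + 1 else depth x r + 1

/-- `Rot t t'`: the tree `t'` arises from `t` by one rotation, at any non-root node. -/
inductive Rot : BinaryTree ℕ → BinaryTree ℕ → Prop
  | atLeftChild (a b : ℕ) (A B C : BinaryTree ℕ) :
      Rot (.node a (.node b A B) C) (.node b A (.node a B C))
  | atRightChild (a b : ℕ) (A B C : BinaryTree ℕ) :
      Rot (.node b A (.node a B C)) (.node a (.node b A B) C)
  | inLeft (a : ℕ) {l l' : BinaryTree ℕ} (r : BinaryTree ℕ) :
      Rot l l' → Rot (.node a l r) (.node a l' r)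
  | inRight (a : ℕ) (l : BinaryTree ℕ) {r r' : BinaryTree ℕ} :
      Rot r r' → Rot (.node a l r) (.node a l r')

/-- One splaying step at the key `x`.
* `x` is the root (or absent): nothing happens.
* The parent of `x` is the root: rotate at `x` (zig).
* `x` has parent `y` and grandparent `z` on the same side: rotate at `y`, then at `x` (zig-zig).
* `x` has parent `y` and grandparent `z` on different sides: rotate at `x` twice (zig-zag).
* `x` lies deeper: the same step is carried out further down, inside the subtree holding `x`. -/
def splayStep (x : ℕ) : BinaryTree ℕ → BinaryTree ℕ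
  | .nil => .nil
  | .node z l r =>
    if x = z then .node z l r
    else if x < z then
      match l with
      | .nil => .node z .nil r
      | .node y a c =>
        if x = y then .node y a (.node z c r)
        else if x < y then
          match a with
          | .nil => .node z (.node y .nil c) r
          | .node w p q =>
            if x = w then .node w p (.node y q (.node z c r))
            else .node z (splayStep x l) r
        else
          match c with
          | .nil => .node z (.node y a .nil) r
          | .node w p q =>
            if x = w then .node w (.node y a p) (.node z q r)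
            else .node z (splayStep x l) r
    else
      match r with
      | .nil => .node z l .nil
      | .node y a c =>
        if x = y then .node y (.node z l a) c
        else if y < x then
          match c with
          | .nil => .node z l (.node y a .nil)
          | .node w p q =>
            if x = w then .node w (.node y (.node z l a) p) q
            else .node z l (splayStep x r)
        else
          match a with
          | .nil => .node z l (.node y .nil c)
          | .node w p q =>
            if x = w then .node w (.node z l p) (.node y q c)
            else .node z l (splayStep x r)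

/-- Splaying `x`: splaying steps at `x` are repeated until `x` is the root.  (Every step
lowers the depth of `x`, and a step does nothing once `x` is the root, so `depth x t` steps
are enough and more do no harm.) -/
def splay (x : ℕ) (t : BinaryTree ℕ) : BinaryTree ℕ := (splayStep x)^[depth x t] t

/-- `cost_splay(X, T)`: each request costs one plus the depth of the requested key. -/
def splayCost : List ℕ → BinaryTree ℕ → ℕ
  | [], _ => 0
  | x :: X, T => (1 + depth x T) + splayCost X (splay x T)

/-- `RotSeq n t t'`: exactly `n` rotations, performed one after another, turn `t` into `t'`. -/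
inductive RotSeq : ℕ → BinaryTree ℕ → BinaryTree ℕ → Prop
  | refl (t : BinaryTree ℕ) : RotSeq 0 t t
  | step {n : ℕ} {t u v : BinaryTree ℕ} : RotSeq n t u → Rot u v → RotSeq (n + 1) t v

/-- `Exec T X c`: there is an execution for `(X, T)` of cost `c`.  For the first request `x`,
`e` rotations turn `T` into `T'` and `x` is searched for in `T`, which costs
`1 + e + depth x T`; then the remaining requests are served from `T'`. -/
inductive Exec : BinaryTree ℕ → List ℕ → ℕ → Prop
  | nil (T : BinaryTree ℕ) : Exec T [] 0
  | cons {T T' : BinaryTree ℕ} {x : ℕ} {X : List ℕ} {e c : ℕ} :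
      RotSeq e T T' → Exec T' X c → Exec T (x :: X) (1 + e + depth x T + c)

/-- `OPT(X, T)`: the minimum cost over all executions for `(X, T)`. -/
noncomputable def OPT (X : List ℕ) (T : BinaryTree ℕ) : ℕ := sInf {c | Exec T X c}

/-! ## Positions along the search path -/

/-- `x` is found at depth `d`. -/
def At (x : ℕ) : ℕ → BinaryTree ℕ → Prop
  | _, .nil => False
  | 0, .node a _ _ => x = a
  | d + 1, .node a l r => (x < a ∧ At x d l) ∨ (a < x ∧ At x d r)

theorem at_depth {x : ℕ} : ∀ {d : ℕ} {t : BinaryTree ℕ}, At x d t → depth x t = d
  | 0, .nil, h => by simp [At] at h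
  | d + 1, .nil, h => by simp [At] at h
  | 0, .node a l r, h => by
      simp only [At] at h
      simp [depth, h]
  | d + 1, .node a l r, h => by
      simp only [At] at h
      rcases h with ⟨h1, h2⟩ | ⟨h1, h2⟩
      · have := at_depth h2
        have hne : x ≠ a := by omega
        simp [depth, hne, h1, this]
      · have := at_depth h2
        have hne : x ≠ a := by omega
        have hnl : ¬ x < a := by omega
        simp [depth, hne, hnl, this]

theorem step_left {x a : ℕ} {t s : BinaryTree ℕ} {d : ℕ} (hx : x < a) (h : At x (d + 2) t) :
    splayStep x (.node a t s) = .node a (splayStep x t) s := by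
  cases t with
  | nil => simp [At] at h
  | node b l r =>
    have hne : x ≠ a := by omega
    rcases h with ⟨h1, h2⟩ | ⟨h1, h2⟩
    · cases l with
      | nil => simp [At] at h2
      | node c u v =>
        have h3 : x ≠ c := by
          rcases h2 with ⟨h3, _⟩ | ⟨h3, _⟩ <;> omega
        have h4 : x ≠ b := by omega
        conv_lhs => rw [splayStep.eq_def]
        simp [hne, hx, h1, h3, h4]
    · cases r with
      | nil => simp [At] at h2
      | node c u v =>
        have h3 : x ≠ c := by
          rcases h2 with ⟨h3, _⟩ | ⟨h3, _⟩ <;> omega
        have h4 : x ≠ b := by omega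
        have h5 : ¬ x < b := by omega
        conv_lhs => rw [splayStep.eq_def]
        simp [hne, hx, h3, h4, h5]

theorem step_right {x a : ℕ} {t s : BinaryTree ℕ} {d : ℕ} (hx : a < x) (h : At x (d + 2) t) :
    splayStep x (.node a s t) = .node a s (splayStep x t) := by
  cases t with
  | nil => simp [At] at h
  | node b l r =>
    have hne : x ≠ a := by omega
    have hnl : ¬ x < a := by omega
    rcases h with ⟨h1, h2⟩ | ⟨h1, h2⟩
    · cases l with
      | nil => simp [At] at h2
      | node c u v =>
        have h3 : x ≠ c := by
          rcases h2 with ⟨h3, _⟩ | ⟨h3, _⟩ <;> omega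
        have h4 : x ≠ b := by omega
        have h5 : ¬ b < x := by omega
        conv_lhs => rw [splayStep.eq_def]
        simp [hne, hnl, h3, h4, h5]
    · cases r with
      | nil => simp [At] at h2
      | node c u v =>
        have h3 : x ≠ c := by
          rcases h2 with ⟨h3, _⟩ | ⟨h3, _⟩ <;> omega
        have h4 : x ≠ b := by omega
        conv_lhs => rw [splayStep.eq_def]
        simp [hne, hnl, h1, h3, h4]

theorem step_root {x : ℕ} {t : BinaryTree ℕ} (h : At x 0 t) : splayStep x t = t := by
  cases t with
  | nil => simp [At] at h
  | node b l r =>
    simp only [At] at h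
    rw [splayStep.eq_def]
    simp [h]

/-! ## The steps as local transformations -/

/-- `Dbl x t t'`: `t'` arises from `t` by one zig-zig or zig-zag step at `x`. -/
inductive Dbl (x : ℕ) : BinaryTree ℕ → BinaryTree ℕ → Prop
  | ll (z y : ℕ) (p q c r : BinaryTree ℕ) (h1 : x < z) (h2 : x < y) :
      Dbl x (.node z (.node y (.node x p q) c) r) (.node x p (.node y q (.node z c r)))
  | lr (z y : ℕ) (a p q r : BinaryTree ℕ) (h1 : x < z) (h2 : y < x) :
      Dbl x (.node z (.node y a (.node x p q)) r) (.node x (.node y a p) (.node z q r))
  | rr (z y : ℕ) (l a p q : BinaryTree ℕ) (h1 : z < x) (h2 : y < x) :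
      Dbl x (.node z l (.node y a (.node x p q))) (.node x (.node y (.node z l a) p) q)
  | rl (z y : ℕ) (l p q c : BinaryTree ℕ) (h1 : z < x) (h2 : x < y) :
      Dbl x (.node z l (.node y (.node x p q) c)) (.node x (.node z l p) (.node y q c))
  | inL (a : ℕ) {l l' : BinaryTree ℕ} (r : BinaryTree ℕ) (h : x < a) :
      Dbl x l l' → Dbl x (.node a l r) (.node a l' r)
  | inR (a : ℕ) (l : BinaryTree ℕ) {r r' : BinaryTree ℕ} (h : a < x) :
      Dbl x r r' → Dbl x (.node a l r) (.node a l r')

/-- `Sgl x t t'`: `t'` arises from `t` by a zig step at `x`. -/
inductive Sgl (x : ℕ) : BinaryTree ℕ → BinaryTree ℕ → Prop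
  | l (z : ℕ) (p q r : BinaryTree ℕ) (h1 : x < z) :
      Sgl x (.node z (.node x p q) r) (.node x p (.node z q r))
  | r (z : ℕ) (l p q : BinaryTree ℕ) (h1 : z < x) :
      Sgl x (.node z l (.node x p q)) (.node x (.node z l p) q)

theorem dbl_step {x : ℕ} : ∀ {d : ℕ} {t : BinaryTree ℕ}, At x (d + 2) t →
    Dbl x t (splayStep x t)
  | d, .nil, h => by simp [At] at h
  | 0, .node a l r, h => by
      rcases h with ⟨h1, h2⟩ | ⟨h1, h2⟩
      · cases l with
        | nil => simp [At] at h2
        | node b l1 l2 =>
          rcases h2 with ⟨h3, h4⟩ | ⟨h3, h4⟩
          · cases l1 with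
            | nil => simp [At] at h4
            | node c u v =>
              simp only [At] at h4
              subst h4
              have e1 : x ≠ a := by omega
              have e2 : x ≠ b := by omega
              rw [splayStep.eq_def]
              simp only [e1, e2, h1, h3, if_true, if_false]
              exact Dbl.ll a b u v l2 r h1 h3
          · cases l2 with
            | nil => simp [At] at h4
            | node c u v =>
              simp only [At] at h4
              subst h4
              have e1 : x ≠ a := by omega
              have e2 : x ≠ b := by omega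
              have e3 : ¬ x < b := by omega
              rw [splayStep.eq_def]
              simp only [e1, e2, e3, h1, if_true, if_false]
              exact Dbl.lr a b l1 u v r h1 h3
      · cases r with
        | nil => simp [At] at h2
        | node b r1 r2 =>
          rcases h2 with ⟨h3, h4⟩ | ⟨h3, h4⟩
          · cases r1 with
            | nil => simp [At] at h4
            | node c u v =>
              simp only [At] at h4
              subst h4
              have e1 : x ≠ a := by omega
              have e2 : x ≠ b := by omega
              have e3 : ¬ b < x := by omega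
              have e4 : ¬ x < a := by omega
              rw [splayStep.eq_def]
              simp only [e1, e2, e3, e4, if_true, if_false]
              exact Dbl.rl a b l u v r2 h1 h3
          · cases r2 with
            | nil => simp [At] at h4
            | node c u v =>
              simp only [At] at h4
              subst h4
              have e1 : x ≠ a := by omega
              have e2 : x ≠ b := by omega
              have e4 : ¬ x < a := by omega
              rw [splayStep.eq_def]
              simp only [e1, e2, e4, h3, if_true, if_false]
              exact Dbl.rr a b l r1 u v h1 h3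
  | d + 1, .node a l r, h => by
      rcases h with ⟨h1, h2⟩ | ⟨h1, h2⟩
      · rw [step_left h1 h2]
        exact Dbl.inL a r h1 (dbl_step h2)
      · rw [step_right h1 h2]
        exact Dbl.inR a l h1 (dbl_step h2)

theorem sgl_step {x : ℕ} {t : BinaryTree ℕ} (h : At x 1 t) : Sgl x t (splayStep x t) := by
  cases t with
  | nil => simp [At] at h
  | node a l r =>
    rcases h with ⟨h1, h2⟩ | ⟨h1, h2⟩
    · cases l with
      | nil => simp [At] at h2
      | node b u v =>
        simp only [At] at h2
        subst h2
        have e1 : x ≠ a := by omega
        rw [splayStep.eq_def]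
        simp only [e1, h1, if_true, if_false]
        exact Sgl.l a u v r h1
    · cases r with
      | nil => simp [At] at h2
      | node b u v =>
        simp only [At] at h2
        subst h2
        have e1 : x ≠ a := by omega
        have e4 : ¬ x < a := by omega
        rw [splayStep.eq_def]
        simp only [e1, e4, if_true, if_false]
        exact Sgl.r a l u v h1

theorem at_dbl {x : ℕ} {t t' : BinaryTree ℕ} (h : Dbl x t t') :
    ∀ {d : ℕ}, At x (d + 2) t → At x d t' := by
  induction h with
  | ll z y p q c r h1 h2 =>
    intro d h
    rcases h with ⟨_, ⟨_, h4⟩ | ⟨h3, _⟩⟩ | ⟨h3, _⟩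
    · cases d with
      | zero => simp [At]
      | succ d => rcases h4 with ⟨h5, _⟩ | ⟨h5, _⟩ <;> omega
    · omega
    · omega
  | lr z y a p q r h1 h2 =>
    intro d h
    rcases h with ⟨_, ⟨h3, _⟩ | ⟨_, h4⟩⟩ | ⟨h3, _⟩
    · omega
    · cases d with
      | zero => simp [At]
      | succ d => rcases h4 with ⟨h5, _⟩ | ⟨h5, _⟩ <;> omega
    · omega
  | rr z y l a p q h1 h2 =>
    intro d h
    rcases h with ⟨h3, _⟩ | ⟨_, ⟨h3, _⟩ | ⟨_, h4⟩⟩
    · omega
    · omega
    · cases d with
      | zero => simp [At]
      | succ d => rcases h4 with ⟨h5, _⟩ | ⟨h5, _⟩ <;> omega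
  | rl z y l p q c h1 h2 =>
    intro d h
    rcases h with ⟨h3, _⟩ | ⟨_, ⟨_, h4⟩ | ⟨h3, _⟩⟩
    · omega
    · cases d with
      | zero => simp [At]
      | succ d => rcases h4 with ⟨h5, _⟩ | ⟨h5, _⟩ <;> omega
    · omega
  | inL a r h hd ih =>
    intro d h'
    cases d with
    | zero =>
      exfalso
      rcases h' with ⟨_, h2⟩ | ⟨h2, _⟩
      · cases hd with
        | ll z y p q c r h1 h3 =>
          rcases h2 with ⟨_, h4⟩ | ⟨h4, _⟩
          · simp only [At] at h4; omega
          · omega
        | lr z y a p q r h1 h3 =>
          rcases h2 with ⟨_, h4⟩ | ⟨h4, _⟩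
          · simp only [At] at h4; omega
          · omega
        | rr z y l a p q h1 h3 =>
          rcases h2 with ⟨h4, _⟩ | ⟨_, h4⟩
          · omega
          · simp only [At] at h4; omega
        | rl z y l p q c h1 h3 =>
          rcases h2 with ⟨h4, _⟩ | ⟨_, h4⟩
          · omega
          · simp only [At] at h4; omega
        | inL a r h3 hd' =>
          rcases h2 with ⟨_, h4⟩ | ⟨h4, _⟩
          · cases hd' <;> simp only [At] at h4 <;> omega
          · omega
        | inR a r h3 hd' =>
          rcases h2 with ⟨h4, _⟩ | ⟨_, h4⟩
          · omega
          · cases hd' <;> simp only [At] at h4 <;> omega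
      · omega
    | succ d =>
      rcases h' with ⟨h1, h2⟩ | ⟨h2, _⟩
      · exact Or.inl ⟨h1, ih h2⟩
      · omega
  | inR a l h hd ih =>
    intro d h'
    cases d with
    | zero =>
      exfalso
      rcases h' with ⟨h2, _⟩ | ⟨_, h2⟩
      · omega
      · cases hd with
        | ll z y p q c r h1 h3 =>
          rcases h2 with ⟨_, h4⟩ | ⟨h4, _⟩
          · simp only [At] at h4; omega
          · omega
        | lr z y a p q r h1 h3 =>
          rcases h2 with ⟨_, h4⟩ | ⟨h4, _⟩
          · simp only [At] at h4; omega
          · omega
        | rr z y l a p q h1 h3 =>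
          rcases h2 with ⟨h4, _⟩ | ⟨_, h4⟩
          · omega
          · simp only [At] at h4; omega
        | rl z y l p q c h1 h3 =>
          rcases h2 with ⟨h4, _⟩ | ⟨_, h4⟩
          · omega
          · simp only [At] at h4; omega
        | inL a r h3 hd' =>
          rcases h2 with ⟨_, h4⟩ | ⟨h4, _⟩
          · cases hd' <;> simp only [At] at h4 <;> omega
          · omega
        | inR a r h3 hd' =>
          rcases h2 with ⟨h4, _⟩ | ⟨_, h4⟩
          · omega
          · cases hd' <;> simp only [At] at h4 <;> omega
    | succ d =>
      rcases h' with ⟨h2, _⟩ | ⟨h1, h2⟩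
      · omega
      · exact Or.inr ⟨h1, ih h2⟩

theorem at_sgl {x : ℕ} {t t' : BinaryTree ℕ} (h : Sgl x t t') : At x 0 t' := by
  cases h <;> simp [At]

end Pool.Agent.MP_c42954_lc
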